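import Pool.Agent.Run7.h26.QT.Prs
import Pool.Agent.Run7.h26.QT.KEY
import Pool.Agent.Run7.h26.QT.GDM
import Pool.Agent.Run7.h26.QT.BX6
import Pool.Agent.Run7.h26.QT.BAD6
import Pool.Agent.Run7.h843.Q5
import Pool.Agent.Run7.h843.V3
import Pool.Agent.Run7.h843.V6
import Pool.Agent.Run7.h135.Q4D
import Pool.Agent.Run7.h26.CN.Br
import Pool.Agent.R413.SM.Law

/-!
# The rank form of the Birch and Swinnerton-Dyer conjecture for quartic and quadratic twists of
# `y² = x³ - x` by the sums of two odd squares: the joint law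

The class: `N` squarefree, `N = u² + v²` with `u`, `v` odd integers; the pairs `(u, v)` are ordered by
`N` and have positive density among all the pairs of integers. The curves:
* `y² = x³ + N x` (quartic twists; no two of them are quadratic twists of each other);
* `y² = x³ - N² x` (quadratic twists, the congruent number curves).

The multipliers: squarefree `a` with all prime factors `≡ 1 mod 4`; the squarefree part `sqf a N` of
`a N` is in the class if `N` is.

THEOREM. (1) For `N` in the class the following are equivalent: the Criterion; `y² = x³ + N x` has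
finitely many rational points and `Ш[2^∞] = 0`; `y² = x³ - N² x` has finitely many rational points and
`Ш[2^∞] = 0`. If they hold, the rank form of the conjecture holds for both curves with
order = rank = 0 (the conclusion of the frozen statement).
(2) For every finite set `T` of multipliers and `V ⊆ T`, exactly the proportion
`c^#V (1 - c)^(#T - #V)` of all pairs `(u, v)` of the class satisfies: for `a ∈ T` the curve
`y² = x³ + sqf(a N) x` has finitely many rational points and `Ш[2^∞] = 0` if and only if `a ∈ V`; here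
`c = ∏_{i ≥ 0} (1 - 2^{-(2i+1)}) = 0.4194...`.
(3) So the rank form holds, with order = rank = 0, for all the `2 #T` curves at the same time for at
least the proportion `0.4194^#T` of the pairs, and for the two curves of some `a ∈ T` for at least
`1 - 0.5806^#T`.

The proof:
* the descent over `ℚ` and its converse (`Run7/h843`), in the language of the Laplacian of the
  quadratic symbols on the primes of `m` and `2` (`N = 2 m`);
* the `L`-functions: `Run7/h135`, `Run7/h555/Q4` (quartic twists), `Run7/h26/CN` (quadratic twists);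
* the joint law for the Laplacians of the sets `S ∆ V_i` with the weights `2 ^ |S|`
  (`Run7/h26/QT`, on the base of `Run7/h843/C1` to `C9`, `Run7/h428/WA` to `WE`,
  `Pool/Agent/R413/SM`, `Pool/Agent/Y697/JQ`);
* the pairs: `Run7/h843/K1`, `K2`, `Run7/h238`.
-/

set_option autoImplicit false

open Filter Topology

namespace Pool.Agent.Results.MP_696deb_nt.QuarticTwistsJoint

open Classical in
/-- The rank form of the conjecture for `y² = x³ + a x + b`, with rank zero: the incomplete Euler product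
over the primes `p ∤ 2Δ` extends to an entire function `F` with `ord_{s=1} F = 0 = rank`. -/
def RankFormZero (a b : ℤ) : Prop :=
  ∃ F : ℂ → ℂ, Differentiable ℂ F ∧
    (∀ s : ℂ, (3 : ℝ) / 2 < s.re →
      HasProd
        (fun p : ℕ =>
          if p.Prime ∧ ¬ ((p : ℤ) ∣ 2 * (-4 * a ^ 3 - 27 * b ^ 2)) then
            (1 - ((p : ℂ) - (Nat.card {q : ZMod p × ZMod p //
                q.2 ^ 2 = q.1 ^ 3 + (a : ZMod p) * q.1 + (b : ZMod p)} : ℂ))
                * (p : ℂ) ^ (-s) + (p : ℂ) ^ (1 - 2 * s))⁻¹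
          else 1)
        (F s)) ∧
    analyticOrderAt F 1 = 0 ∧
    Module.finrank ℤ
      (WeierstrassCurve.Affine.Point
        (WeierstrassCurve.toAffine
          ({ a₁ := 0, a₂ := 0, a₃ := 0, a₄ := (a : ℚ), a₆ := (b : ℚ) } :
            WeierstrassCurve ℚ))) = 0

/-- the curve `y² = x³ + a x` over `ℚ` -/
def W (a : ℤ) : WeierstrassCurve ℚ := { a₁ := 0, a₂ := 0, a₃ := 0, a₄ := (a : ℚ), a₆ := 0 }

/-- The curve `y² = x³ + a x` has finitely many rational points, and its Tate-Shafarevich group over `ℚ`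
has no element of order two (so the `2`-primary part is zero). -/
def TrivialTwo (a : ℤ) : Prop :=
  Finite (W a).toAffine.Point ∧
    ∀ (n : ℕ) (x : Pool.Agent.TH841.NF.D.Sha (W a)), 2 ^ n • x = 0 → x = 0

/-- the class: squarefree sums of two odd squares -/
def Cls (N : ℕ) : Prop :=
  Squarefree N ∧ ∃ u v : ℤ, Odd u ∧ Odd v ∧ (N : ℤ) = u ^ 2 + v ^ 2

/-- the multipliers: squarefree numbers with all prime factors `≡ 1 mod 4` -/
def Mult (a : ℕ) : Prop := Squarefree a ∧ ∀ p : ℕ, p.Prime → p ∣ a → p % 4 = 1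

/-- the squarefree part of `a N`, for squarefree `a` and `N` -/
def sqf (a N : ℕ) : ℕ := a * N / Nat.gcd a N ^ 2

/-- The criterion for `N` in the class: if `2 d e = N`, `2 e` is a square modulo each prime divisor
of `d` and `d` is a square modulo each prime divisor of `e`, then `d = 1`. -/
def Criterion (N : ℕ) : Prop := ∀ d e : ℕ, 2 * (d * e) = N →
  (∀ p : ℕ, p.Prime → p ∣ d → IsSquare ((2 * e : ℕ) : ZMod p)) →
  (∀ p : ℕ, p.Prime → p ∣ e → IsSquare ((d : ℕ) : ZMod p)) → d = 1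

/-- the rank form for both curves of `N`: `y² = x³ + N x` and `y² = x³ - N² x` -/
def BothRankFormZero (N : ℕ) : Prop := RankFormZero N 0 ∧ RankFormZero (-(N : ℤ) ^ 2) 0

/-- the number of the pairs `(u, v)` of odd integers with squarefree `u² + v² ≤ X` such that
`u² + v²` has the property `Q` -/
noncomputable def num (Q : ℕ → Prop) (X : ℕ) : ℕ :=
  Nat.card {v : ℤ × ℤ // Odd v.1 ∧ Odd v.2 ∧ v.1 ^ 2 + v.2 ^ 2 ≤ (X : ℤ) ∧
    Squarefree (v.1 ^ 2 + v.2 ^ 2) ∧ Q (v.1 ^ 2 + v.2 ^ 2).toNat}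

/-- the constant `0.4194...` -/
noncomputable def c : ℝ := ∏' i : ℕ, (1 - (1 / 2 : ℝ) ^ (2 * i + 1))

section proof

open Run7.h238.Pairs Run7.h843.Fin Run7.h843.Sqf
open Run7.h843.Cnt (Gd6)
open Run7.h26.QT (QJ6 am)
open Pool.Agent.Y703.CQ (c2)
open Pool.Agent.Results.MP_4a9ea6_nt.TwoPartTwistsX49 (Adm)
open Pool.Agent.R413.SQ.Joint (tw tw_pf adm_tw ac_tw)

/-- squarefree numbers with prime factors `1 mod 4` -/
theorem adm_mult {a : ℕ} : Mult a ↔ Adm a := by
  unfold Mult Adm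
  refine and_congr_right fun h => ?_
  constructor
  · intro h1 p hp
    exact h1 p (Nat.prime_of_mem_primeFactors hp) (Nat.dvd_of_mem_primeFactors hp)
  · intro h1 p hp hpa
    exact h1 p (Nat.mem_primeFactors.2 ⟨hp, hpa, h.ne_zero⟩)

theorem adm_odd {m : ℕ} (h : Adm m) : m % 2 = 1 := by
  rcases Nat.mod_two_eq_zero_or_one m with h0 | h0
  · exfalso
    have := h.2 2 (Nat.mem_primeFactors.2 ⟨Nat.prime_two, Nat.dvd_of_mod_eq_zero h0, h.1.ne_zero⟩)
    omega
  · exact h0

/-- the class in terms of the half -/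
theorem cls_half {N : ℕ} (h : Cls N) : ∃ m : ℕ, Adm m ∧ N = 2 * m := by
  obtain ⟨hs, u, v, hu, hv, hN⟩ := h
  have h1 : N = nm (u, v) := by
    have := Run7.h238.Half.nm_int (u, v)
    simp only at this
    have h2 : (N : ℤ) = (nm (u, v) : ℤ) := by rw [this, hN]
    exact_mod_cast h2
  have hs' : Squarefree (nm (u, v)) := h1 ▸ hs
  obtain ⟨w, h2, h3, h3s⟩ := Run7.h843.T8.half_data (v := (u, v)) hu hv hs'
  exact ⟨nm w, ⟨h3s, QX_pf h3 h3s⟩, by rw [h1, h2]⟩

/-- `2 m` is a sum of two odd squares -/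
theorem half_cls {m : ℕ} (h : Adm m) : Cls (2 * m) := by
  have ho := adm_odd h
  refine ⟨?_, ?_⟩
  · rw [Nat.squarefree_mul_iff]
    exact ⟨Nat.coprime_two_left.2 (Nat.odd_iff.2 ho), Nat.prime_two.squarefree, h.1⟩
  · have h1 : ∃ x y : ℕ, 2 * m = x ^ 2 + y ^ 2 := by
      apply Nat.eq_sq_add_sq_iff.2
      intro q hq hq3
      exfalso
      have hqp := Nat.prime_of_mem_primeFactors hq
      have hqd := Nat.dvd_of_mem_primeFactors hq
      rcases (Nat.Prime.dvd_mul hqp).1 hqd with h2 | h2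
      · have := (Nat.prime_dvd_prime_iff_eq hqp Nat.prime_two).1 h2
        omega
      · have := h.2 q (Nat.mem_primeFactors.2 ⟨hqp, h2, h.1.ne_zero⟩)
        omega
    obtain ⟨x, y, hxy⟩ := h1
    have hx : x % 2 = 1 ∧ y % 2 = 1 := by
      have e1 : x ^ 2 % 4 = if x % 2 = 0 then 0 else 1 := by
        rcases Nat.mod_two_eq_zero_or_one x with h0 | h0
        · rw [if_pos h0]
          obtain ⟨k, hk⟩ : ∃ k, x = 2 * k := ⟨x / 2, by omega⟩
          rw [hk]
          have : (2 * k) ^ 2 = 4 * k ^ 2 := by ring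
          omega
        · rw [if_neg (by omega)]
          obtain ⟨k, hk⟩ : ∃ k, x = 2 * k + 1 := ⟨x / 2, by omega⟩
          rw [hk]
          have : (2 * k + 1) ^ 2 = 4 * (k ^ 2 + k) + 1 := by ring
          omega
      have e2 : y ^ 2 % 4 = if y % 2 = 0 then 0 else 1 := by
        rcases Nat.mod_two_eq_zero_or_one y with h0 | h0
        · rw [if_pos h0]
          obtain ⟨k, hk⟩ : ∃ k, y = 2 * k := ⟨y / 2, by omega⟩
          rw [hk]
          have : (2 * k) ^ 2 = 4 * k ^ 2 := by ring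
          omega
        · rw [if_neg (by omega)]
          obtain ⟨k, hk⟩ : ∃ k, y = 2 * k + 1 := ⟨y / 2, by omega⟩
          rw [hk]
          have : (2 * k + 1) ^ 2 = 4 * (k ^ 2 + k) + 1 := by ring
          omega
      split_ifs at e1 e2 <;> omega
    refine ⟨x, y, ?_, ?_, ?_⟩
    · have : Odd x := Nat.odd_iff.2 hx.1
      exact_mod_cast this
    · have : Odd y := Nat.odd_iff.2 hx.2
      exact_mod_cast this
    · exact_mod_cast hxy

/-- the criterion in terms of the matrix -/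
theorem crit_adm {m : ℕ} (h : Adm m) : Criterion (2 * m) ↔ Gd6 m.primeFactors := by
  rw [cri_iff h.1 h.2]
  unfold Criterion Cri
  constructor
  · intro hc d e hde
    exact hc d e (by rw [hde])
  · intro hc d e hde
    exact hc d e (by omega)

theorem oddP_adm {m : ℕ} (h : Adm m) : oddP m = m.primeFactors := by
  unfold oddP
  refine Finset.filter_true_of_mem fun p hp => ?_
  have h1 := (Nat.squarefree_iff_factorization_le_one h.1.ne_zero).1 h.1 p
  have h2 := (Nat.prime_of_mem_primeFactors hp).factorization_pos_of_dvd h.1.ne_zero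
    (Nat.dvd_of_mem_primeFactors hp)
  have h3 : m.factorization p = 1 := by omega
  rw [h3]
  exact odd_one

theorem okn_adm {m : ℕ} (h : Adm m) : Okn m :=
  ⟨h.1.ne_zero, fun p hp => h.2 p (by rw [← oddP_adm h]; exact hp)⟩

theorem triv_quartic {m : ℕ} (h : Adm m) : TrivialTwo ((2 * m : ℕ) : ℤ) ↔ Gd6 m.primeFactors := by
  have h1 := Run7.h843.Conv.iffC h.1 h.2 (W := W ((2 * m : ℕ) : ℤ)) (by
    unfold W
    push_cast
    rfl)
  exact h1

theorem triv_quadratic {m : ℕ} (h : Adm m) :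
    TrivialTwo (-((2 * m : ℕ) : ℤ) ^ 2) ↔ Gd6 m.primeFactors := by
  have h1 := Run7.h843.Conv.iffE (okn_adm h) (W := W (-((2 * m : ℕ) : ℤ) ^ 2)) (by
    unfold W
    push_cast
    rfl)
  rw [oddP_adm h] at h1
  exact h1

theorem ana : Run7.h843.Fin.Ana := by
  intro m hm h1 hk
  exact Run7.h26.CN.Lfun m hm h1 hk

theorem rank_both {m : ℕ} (h : Adm m) (hG : Gd6 m.primeFactors) : BothRankFormZero (2 * m) := by
  constructor
  · have h1 := Run7.h843.Quart.rank4 Pool.Agent.Run7.h135.Q4L.ana4 h.1 h.2 hG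
    have e : (((2 * m : ℕ) : ℕ) : ℤ) = 2 * (m : ℤ) := by push_cast; ring
    rw [e]
    exact h1
  · have h1 := Run7.h843.Fin.rank_n ana (okn_adm h) (by rw [oddP_adm h]; exact hG)
    have e : -((2 * m : ℕ) : ℤ) ^ 2 = -4 * (m : ℤ) ^ 2 := by
      push_cast
      ring
    rw [e]
    exact h1

theorem points_quartic {m : ℕ} (h : Adm m) (hG : Gd6 m.primeFactors) {x y : ℚ}
    (hxy : y ^ 2 = x ^ 3 + ((2 * m : ℕ) : ℚ) * x) : x = 0 ∧ y = 0 := by
  have h7 : y ^ 2 = x ^ 3 + 2 * m * x := by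
    rw [hxy]
    push_cast
    ring
  have hy := Run7.h843.Quart.no_points4 h.1 h.2 hG h7
  refine ⟨?_, hy⟩
  rw [hy] at h7
  have hmp : (0 : ℚ) < m := by
    have : 0 < m := Nat.pos_of_ne_zero h.1.ne_zero
    exact_mod_cast this
  have h8 : x * (x ^ 2 + 2 * m) = 0 := by linear_combination -h7
  rcases mul_eq_zero.1 h8 with h9 | h9
  · exact h9
  · have : (0 : ℚ) < x ^ 2 + 2 * m := by positivity
    exact absurd h9 this.ne'

theorem points_quadratic {m : ℕ} (h : Adm m) (hG : Gd6 m.primeFactors) {x y : ℚ}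
    (hxy : y ^ 2 = x ^ 3 - ((2 * m : ℕ) : ℚ) ^ 2 * x) : y = 0 := by
  refine Run7.h843.Fin.no_points_n (okn_adm h) (by rw [oddP_adm h]; exact hG) (x := x) ?_
  rw [hxy]
  push_cast
  ring

/-- the squarefree part for `N = 2 m` -/
theorem sqf_two {a m : ℕ} (ha : Adm a) : sqf a (2 * m) = 2 * tw a m := by
  have ho := adm_odd ha
  have hg : Nat.gcd a (2 * m) = Nat.gcd a m :=
    Nat.Coprime.gcd_mul_left_cancel_right m (Nat.coprime_two_left.2 (Nat.odd_iff.2 ho))
  unfold sqf tw
  rw [hg, show a * (2 * m) = 2 * (a * m) by ring]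
  refine Nat.mul_div_assoc 2 ?_
  rw [sq]
  exact Nat.mul_dvd_mul (Nat.gcd_dvd_left a m) (Nat.gcd_dvd_right a m)

theorem triv_sqf {a m : ℕ} (ha : Adm a) (hm : Adm m) :
    TrivialTwo ((sqf a (2 * m) : ℕ) : ℤ) ↔ Gd6 (symmDiff m.primeFactors a.primeFactors) := by
  rw [sqf_two ha, triv_quartic (adm_tw ha hm), tw_pf ha hm]

/-- the numbers of pairs -/
theorem num_QX (Q : ℕ → Prop) (X : ℕ) :
    num Q X = (open Classical in ((QX (X / 2)).filter fun v => Q (2 * nm v)).card) := by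
  have h1 : num Q X = Run7.h843.T8.num Q X := rfl
  rw [h1, Run7.h843.T8.num_eq, WX_card]

theorem adm_QX {X : ℕ} {v : ℤ × ℤ} (hv : v ∈ QX X) : Adm (nm v) := by
  unfold QX at hv
  rw [Finset.mem_filter] at hv
  exact ⟨hv.2.2, QX_pf hv.2.1 hv.2.2⟩

theorem injT {T : Finset ℕ} (hT : ∀ t ∈ T, Adm t) : Set.InjOn Nat.primeFactors (T : Set ℕ) := by
  intro m hm n hn hmn
  rw [← Nat.prod_primeFactors_of_squarefree (hT m hm).1,
    ← Nat.prod_primeFactors_of_squarefree (hT n hn).1, hmn]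

/-- **the joint law** -/
theorem joint (h : QJ6) {T V : Finset ℕ} (hT : ∀ a ∈ T, Mult a) (hV : V ⊆ T) :
    Tendsto (fun X : ℕ => (num (fun N => ∀ a ∈ T, (TrivialTwo (sqf a N : ℕ) ↔ a ∈ V)) X : ℝ) /
      (num (fun _ => True) X : ℝ)) atTop (𝓝 (c ^ V.card * (1 - c) ^ (T.card - V.card))) := by
  classical
  have hT' : ∀ a ∈ T, Adm a := fun a ha => adm_mult.1 (hT a ha)
  have hinj := injT hT'
  have h1 := h (V.image Nat.primeFactors) ((T \ V).image Nat.primeFactors)
    (by
      intro U hU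
      rcases Finset.mem_union.1 hU with hU | hU
      · obtain ⟨a, ha, rfl⟩ := Finset.mem_image.1 hU
        exact fun p hp => ⟨Nat.prime_of_mem_primeFactors hp, (hT' a (hV ha)).2 p hp⟩
      · obtain ⟨a, ha, rfl⟩ := Finset.mem_image.1 hU
        exact fun p hp => ⟨Nat.prime_of_mem_primeFactors hp,
          (hT' a (Finset.mem_sdiff.1 ha).1).2 p hp⟩)
    (by
      rw [Finset.disjoint_left]
      intro U hU hU'
      obtain ⟨a, ha, rfl⟩ := Finset.mem_image.1 hU
      obtain ⟨b, hb, hab⟩ := Finset.mem_image.1 hU'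
      rw [Finset.mem_sdiff] at hb
      exact hb.2 (hinj hb.1 (hV ha) hab ▸ ha))
  have e1 : (V.image Nat.primeFactors).card = V.card :=
    Finset.card_image_of_injOn (hinj.mono (by exact_mod_cast hV))
  have e2 : ((T \ V).image Nat.primeFactors).card = T.card - V.card := by
    rw [Finset.card_image_of_injOn (hinj.mono (by
      intro x hx
      exact (Finset.mem_sdiff.1 (Finset.mem_coe.1 hx)).1)), Finset.card_sdiff_of_subset hV]
  rw [e1, e2] at h1
  have hdiv : Tendsto (fun X : ℕ => X / 2) atTop atTop := Nat.tendsto_div_const_atTop two_ne_zero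
  have h2 := h1.comp hdiv
  have hcc : c2 = c := rfl
  rw [hcc] at h2
  refine h2.congr fun X => ?_
  simp only [Function.comp]
  rw [num_QX, num_QX]
  congr 1
  · norm_cast
    congr 1
    ext v
    simp only [Finset.mem_filter]
    refine and_congr_right fun hv => ?_
    have hm := adm_QX hv
    constructor
    · rintro ⟨h3, h4⟩ a ha
      rw [triv_sqf (hT' a ha) hm]
      constructor
      · intro h5
        by_contra hc
        exact h4 _ (Finset.mem_image_of_mem _ (Finset.mem_sdiff.2 ⟨ha, hc⟩)) h5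
      · intro h5
        exact h3 _ (Finset.mem_image_of_mem _ h5)
    · intro h3
      constructor
      · intro U hU
        obtain ⟨a, ha, rfl⟩ := Finset.mem_image.1 hU
        exact (triv_sqf (hT' a (hV ha)) hm).1 ((h3 a (hV ha)).2 ha)
      · intro U hU hG
        obtain ⟨a, ha, rfl⟩ := Finset.mem_image.1 hU
        rw [Finset.mem_sdiff] at ha
        exact ha.2 ((h3 a ha.1).1 ((triv_sqf (hT' a ha.1) hm).2 hG))
  · norm_cast
    congr 1
    simp

theorem num_mono {Q Q' : ℕ → Prop} {X : ℕ} (h : ∀ N, Cls N → Q N → Q' N) :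
    num Q X ≤ num Q' X := by
  classical
  rw [num_QX, num_QX]
  refine Finset.card_le_card fun v hv => ?_
  rw [Finset.mem_filter] at hv ⊢
  exact ⟨hv.1, h _ (half_cls (adm_QX hv.1)) hv.2⟩

theorem num_not (Q : ℕ → Prop) (X : ℕ) :
    num Q X + num (fun N => ¬ Q N) X = num (fun _ => True) X := by
  classical
  rw [num_QX, num_QX, num_QX]
  rw [Finset.filter_true]
  convert Finset.card_filter_add_card_filter_not (s := QX (X / 2)) (fun v => Q (2 * nm v)) using 2
  congr 1
  ext v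
  simp only [Finset.mem_filter]

theorem pos_density : ∃ a : ℝ, 0 < a ∧ ∀ᶠ X : ℕ in atTop,
    a * X ≤ (num (fun _ => True) X : ℝ) :=
  (Run7.h843.T8.main Pool.Agent.Run7.h135.Q4L.ana4).2.2.2.2.1

theorem c_gt : 0.4194 < c := Pool.Agent.Y948.CQ.t_C2.2.2.2.1

theorem c_lt : c < 0.4195 := Pool.Agent.Y948.CQ.t_C2.2.2.2.2

theorem num_pos : ∀ᶠ X : ℕ in atTop, (0 : ℝ) < (num (fun _ => True) X : ℝ) := by
  obtain ⟨a, ha, h⟩ := pos_density
  filter_upwards [h, eventually_ge_atTop 1] with X h1 h2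
  have h3 : (0 : ℝ) < X := by exact_mod_cast h2
  exact lt_of_lt_of_le (by positivity) h1

theorem both_of {a N : ℕ} (ha : Mult a) (hN : Cls N) (h : TrivialTwo (sqf a N : ℕ)) :
    BothRankFormZero (sqf a N) := by
  obtain ⟨m, hm, rfl⟩ := cls_half hN
  have ha' := adm_mult.1 ha
  rw [sqf_two ha'] at h ⊢
  exact rank_both (adm_tw ha' hm) ((triv_quartic (adm_tw ha' hm)).1 h)

theorem all_good (h : QJ6) {T : Finset ℕ} (hT : ∀ a ∈ T, Mult a) : ∀ᶠ X : ℕ in atTop,
    0.4194 ^ T.card * (num (fun _ => True) X : ℝ) ≤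
      (num (fun N => ∀ a ∈ T, BothRankFormZero (sqf a N)) X : ℝ) := by
  rcases T.eq_empty_or_nonempty with rfl | hne
  · refine Eventually.of_forall fun X => ?_
    simp
  have h1 := joint h hT (Finset.Subset.refl T)
  rw [Nat.sub_self, pow_zero, mul_one] at h1
  have hc0 : (0.4194 : ℝ) ^ T.card < c ^ T.card :=
    pow_lt_pow_left₀ c_gt (by norm_num) (Finset.card_ne_zero.2 hne)
  filter_upwards [h1.eventually (lt_mem_nhds hc0), num_pos] with X h2 h3
  have h4 := (lt_div_iff₀ h3).1 h2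
  have h5 : num (fun N => ∀ a ∈ T, (TrivialTwo (sqf a N : ℕ) ↔ a ∈ T)) X ≤
      num (fun N => ∀ a ∈ T, BothRankFormZero (sqf a N)) X :=
    num_mono fun N hN hQ a ha => both_of (hT a ha) hN ((hQ a ha).2 ha)
  have h6 : (num (fun N => ∀ a ∈ T, (TrivialTwo (sqf a N : ℕ) ↔ a ∈ T)) X : ℝ) ≤
      (num (fun N => ∀ a ∈ T, BothRankFormZero (sqf a N)) X : ℝ) := by exact_mod_cast h5
  linarith

theorem some_good (h : QJ6) {T : Finset ℕ} (hT : ∀ a ∈ T, Mult a) : ∀ᶠ X : ℕ in atTop,
    (1 - 0.5806 ^ T.card) * (num (fun _ => True) X : ℝ) ≤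
      (num (fun N => ∃ a ∈ T, BothRankFormZero (sqf a N)) X : ℝ) := by
  rcases T.eq_empty_or_nonempty with rfl | hne
  · refine Eventually.of_forall fun X => ?_
    simp
  have h1 := joint h hT (Finset.empty_subset T)
  rw [Finset.card_empty, Nat.sub_zero, pow_zero, one_mul] at h1
  have hc0 : (1 - c) ^ T.card < (0.5806 : ℝ) ^ T.card := by
    refine pow_lt_pow_left₀ ?_ ?_ (Finset.card_ne_zero.2 hne)
    · have := c_gt
      linarith
    · have := c_lt
      linarith
  filter_upwards [h1.eventually (gt_mem_nhds hc0), num_pos] with X h2 h3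
  have h4 := (div_lt_iff₀ h3).1 h2
  have h5 : num (fun N => ¬ ∃ a ∈ T, BothRankFormZero (sqf a N)) X ≤
      num (fun N => ∀ a ∈ T, (TrivialTwo (sqf a N : ℕ) ↔ a ∈ (∅ : Finset ℕ))) X :=
    num_mono fun N hN hQ a ha => by
      constructor
      · intro h6
        exact absurd ⟨a, ha, both_of (hT a ha) hN h6⟩ hQ
      · intro h6
        exact absurd h6 (Finset.notMem_empty a)
  have h6 : (num (fun N => ¬ ∃ a ∈ T, BothRankFormZero (sqf a N)) X : ℝ) ≤
      (num (fun N => ∀ a ∈ T, (TrivialTwo (sqf a N : ℕ) ↔ a ∈ (∅ : Finset ℕ))) X : ℝ) := by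
    exact_mod_cast h5
  have h7 : (num (fun N => ∃ a ∈ T, BothRankFormZero (sqf a N)) X : ℝ) +
      (num (fun N => ¬ ∃ a ∈ T, BothRankFormZero (sqf a N)) X : ℝ) =
      (num (fun _ => True) X : ℝ) := by exact_mod_cast num_not _ X
  linarith

/-- the statement, from the joint law for the criterion -/
theorem main (h : QJ6) :
    (∀ a N : ℕ, Mult a → Cls N → Cls (sqf a N) ∧ a * N = sqf a N * Nat.gcd a N ^ 2) ∧
    (∀ N : ℕ, Cls N → (TrivialTwo N ↔ Criterion N) ∧ (TrivialTwo (-(N : ℤ) ^ 2) ↔ Criterion N)) ∧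
    (∀ N : ℕ, Cls N → Criterion N → BothRankFormZero N ∧
      (∀ x y : ℚ, y ^ 2 = x ^ 3 + (N : ℚ) * x → x = 0 ∧ y = 0) ∧
      ∀ x y : ℚ, y ^ 2 = x ^ 3 - (N : ℚ) ^ 2 * x → y = 0) ∧
    (∀ T V : Finset ℕ, (∀ a ∈ T, Mult a) → V ⊆ T →
      Tendsto (fun X : ℕ =>
        (num (fun N => ∀ a ∈ T, (TrivialTwo (sqf a N : ℕ) ↔ a ∈ V)) X : ℝ) /
          (num (fun _ => True) X : ℝ)) atTop (𝓝 (c ^ V.card * (1 - c) ^ (T.card - V.card)))) ∧
    (∀ T : Finset ℕ, (∀ a ∈ T, Mult a) → ∀ᶠ X : ℕ in atTop,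
      0.4194 ^ T.card * (num (fun _ => True) X : ℝ) ≤
        (num (fun N => ∀ a ∈ T, BothRankFormZero (sqf a N)) X : ℝ) ∧
      (1 - 0.5806 ^ T.card) * (num (fun _ => True) X : ℝ) ≤
        (num (fun N => ∃ a ∈ T, BothRankFormZero (sqf a N)) X : ℝ)) ∧
    0.4194 < c ∧ c < 0.4195 ∧
    ∃ a : ℝ, 0 < a ∧ ∀ᶠ X : ℕ in atTop, a * X ≤ (num (fun _ => True) X : ℝ) := by
  refine ⟨fun a N ha hN => ?_, fun N hN => ?_, fun N hN hc => ?_, fun T V hT hV => joint h hT hV,
    fun T hT => (all_good h hT).and (some_good h hT), c_gt, c_lt, pos_density⟩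
  · obtain ⟨m, hm, rfl⟩ := cls_half hN
    have ha' := adm_mult.1 ha
    have ho := adm_odd ha'
    have hg : Nat.gcd a (2 * m) = Nat.gcd a m :=
      Nat.Coprime.gcd_mul_left_cancel_right m (Nat.coprime_two_left.2 (Nat.odd_iff.2 ho))
    rw [sqf_two ha', hg]
    refine ⟨half_cls (adm_tw ha' hm), ?_⟩
    have h1 := (ac_tw ha' hm).2
    calc a * (2 * m) = 2 * (a * m) := by ring
      _ = 2 * (tw a m * Nat.gcd a m ^ 2) := by rw [← h1]
      _ = _ := by ring
  · obtain ⟨m, hm, rfl⟩ := cls_half hN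
    exact ⟨(triv_quartic hm).trans (crit_adm hm).symm, (triv_quadratic hm).trans (crit_adm hm).symm⟩
  · obtain ⟨m, hm, rfl⟩ := cls_half hN
    have hG := (crit_adm hm).1 hc
    exact ⟨rank_both hm hG, fun x y hxy => points_quartic hm hG hxy,
      fun x y hxy => points_quadratic hm hG hxy⟩

end proof

/-- **The rank form of the conjecture for the quartic and the quadratic twists of `y² = x³ - x` by the
squarefree sums of two odd squares: the joint law.** -/
theorem result :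
    (∀ a N : ℕ, Mult a → Cls N → Cls (sqf a N) ∧ a * N = sqf a N * Nat.gcd a N ^ 2) ∧
    (∀ N : ℕ, Cls N → (TrivialTwo N ↔ Criterion N) ∧ (TrivialTwo (-(N : ℤ) ^ 2) ↔ Criterion N)) ∧
    (∀ N : ℕ, Cls N → Criterion N → BothRankFormZero N ∧
      (∀ x y : ℚ, y ^ 2 = x ^ 3 + (N : ℚ) * x → x = 0 ∧ y = 0) ∧
      ∀ x y : ℚ, y ^ 2 = x ^ 3 - (N : ℚ) ^ 2 * x → y = 0) ∧
    (∀ T V : Finset ℕ, (∀ a ∈ T, Mult a) → V ⊆ T →
      Tendsto (fun X : ℕ =>
        (num (fun N => ∀ a ∈ T, (TrivialTwo (sqf a N : ℕ) ↔ a ∈ V)) X : ℝ) /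
          (num (fun _ => True) X : ℝ)) atTop (𝓝 (c ^ V.card * (1 - c) ^ (T.card - V.card)))) ∧
    (∀ T : Finset ℕ, (∀ a ∈ T, Mult a) → ∀ᶠ X : ℕ in atTop,
      0.4194 ^ T.card * (num (fun _ => True) X : ℝ) ≤
        (num (fun N => ∀ a ∈ T, BothRankFormZero (sqf a N)) X : ℝ) ∧
      (1 - 0.5806 ^ T.card) * (num (fun _ => True) X : ℝ) ≤
        (num (fun N => ∃ a ∈ T, BothRankFormZero (sqf a N)) X : ℝ)) ∧
    0.4194 < c ∧ c < 0.4195 ∧
    ∃ a : ℝ, 0 < a ∧ ∀ᶠ X : ℕ in atTop, a * X ≤ (num (fun _ => True) X : ℝ) :=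
  main (Run7.h26.QT.qj6 (Run7.h26.QT.t_KEY6 (Run7.h26.QT.t_BX6 Run7.h26.QT.t_GDM
    Pool.Agent.Y356.CQ.t_EQ Pool.Agent.Y697.JQ.t_JLA)) Run7.h26.QT.t_BAD6)

end Pool.Agent.Results.MP_696deb_nt.QuarticTwistsJoint
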