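import Pool.Agent.Run7.h555.P15.Ltw
import Pool.Agent.Run7.h238.G15.Dens
import Pool.Agent.Run7.h424.DC.Fin
import Pool.Agent.Run7.h424.N15.Conv
import Pool.Agent.Run7.h424.N15.Ap2
import Pool.Agent.Run7.h238.J.Mix

/-!
# The joint law for the quadratic twists of `X_0(15)`: the rank form of the Birch and Swinnerton-Dyer
# conjecture for arbitrarily many twists simultaneously

`E_n : y² = x (x + 9 n) (x + 25 n)` is the quadratic twist by `-n` of
`X_0(15) : y² = x (x - 9) (x - 25)`, a curve without complex multiplication; its short model is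
`y² = x³ - 12987 n² x + 263466 n³` (put `x = 9 X + 102 n`). The class consists of the squarefree `n`
congruent to `23` or `47` modulo `60`, in the natural order. A multiplier is a squarefree number `a`
congruent to `1` or `49` modulo `60`; the squarefree part `tw a n` of `a n` is again in the class, and
`E_{tw a n}` is the quadratic twist of `E_n` by `a`. Let `η = ∏_{i ≥ 1} (1 - 2^{-i}) = 0.2888...`.
* For `n` of the class, `E_n(ℚ)` is finite and `Ш(E_n/ℚ)[2^∞] = 0` if and only if `n` is not the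
  product of two numbers `b, c > 1` such that `b` is a square modulo the primes dividing `c` and `c`
  is a square modulo the primes dividing `b`. Then the rank form of the conjecture holds for `E_n`,
  with rank and order of vanishing zero (the conclusion of the frozen statement).
* For different multipliers these events are asymptotically independent: for every finite set `S` of
  multipliers and every subset `T`, exactly the proportion `η^#T (1 - η)^(#S - #T)` of the class
  consists of `n` for which `T` is the set of the `a ∈ S` with `E_{tw a n}(ℚ)` finite and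
  `Ш(E_{tw a n}/ℚ)[2^∞] = 0`.
* So for the curves `E_{tw a n}`, `a ∈ S` (pairwise not isogenous, as many as we like), the rank form
  holds SIMULTANEOUSLY, with order and rank zero, for a proportion at least `0.2887^#S` of the
  class, and for all but the proportion `(1 - η)^#S` of the class it holds for at least one of them.
* The case `S = {1}` and the proportion among all quadratic twists of `X_0(15)`.

The proof has five parts, all from files of this project and of the starting tree:
* the complete 2-descent (`Run7/h424/DC`);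
* the modular parametrization of `X_0(15)` and the modular symbols (`Run7/h741/MF`, `Run7/h209/P15`), and
  the functional equation, the twisted Euler product and the central value (`Run7/h555/P15`);
* the formula of Gross for the twists: the central value is a period times the square of
  `2^ω(n) y` up to a constant, by an identity between modular symbols and numbers of
  representations by ternary quadratic forms (`Run7/h135/P15`, `Run7/h238/P`, `Run7/h483/P15`), and `y` is
  odd if and only if the criterion holds;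
* the equidistribution of the symbols in the natural order (`N916/GB`, `N218/GB`, `N958`);
* the joint law: the mixed moments of the kernels of several Rédei systems which differ in finitely
  many rows and columns, and the sum over the boxes (`Run7/h238/J`, `Run7/h843/J`, `Run7/h209/J`,
  `Run7/h89/J`, `Run7/h424/J`, `Run7/h289/J`).
-/

set_option autoImplicit false

open Filter Topology

namespace Pool.Agent.Results.MP_696deb_nt.TwistsX15Joint

open Pool.Agent.TH841.NF.D (Sha)

/-- the curve `y² = x (x + 9 n) (x + 25 n)` over `ℚ` -/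
def E (n : ℕ) : WeierstrassCurve ℚ :=
  { a₁ := 0, a₂ := 34 * n, a₃ := 0, a₄ := 225 * (n : ℚ) ^ 2, a₆ := 0 }

/-- the class -/
def Class (n : ℕ) : Prop := Squarefree n ∧ (n % 60 = 23 ∨ n % 60 = 47)

/-- the multipliers -/
def Mult (a : ℕ) : Prop := Squarefree a ∧ (a % 60 = 1 ∨ a % 60 = 49)

/-- the squarefree part of `a n`, for `a` and `n` squarefree -/
def tw (a n : ℕ) : ℕ := a * n / (Nat.gcd a n) ^ 2

/-- `E_n(ℚ)` is finite and `Ш(E_n/ℚ)[2^∞] = 0` -/
def TrivialTwo (n : ℕ) : Prop :=
  Finite (E n).toAffine.Point ∧ ∀ k : ℕ, ∀ x : Sha (E n), 2 ^ k • x = 0 → x = 0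

/-- whenever `b c = n`, where `b` is a square modulo all primes dividing `c` and `c` is a square modulo
all primes dividing `b`, then `b = 1` or `c = 1` -/
def Criterion (n : ℕ) : Prop :=
  ∀ b c : ℕ, b * c = n → (∀ p : ℕ, p.Prime → p ∣ c → IsSquare (b : ZMod p)) →
    (∀ p : ℕ, p.Prime → p ∣ b → IsSquare (c : ZMod p)) → b = 1 ∨ c = 1

open Classical in
/-- The rank form of the conjecture for `y² = x³ + a x + b`, with rank zero: the incomplete Euler product
over the primes `p ∤ 2Δ` extends to an entire function `F` with `ord_{s=1} F = 0 = rank`. -/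
def RankFormZero (a b : ℤ) : Prop :=
  ∃ F : ℂ → ℂ, Differentiable ℂ F ∧
    (∀ s : ℂ, (3 : ℝ) / 2 < s.re →
      HasProd
        (fun p : ℕ =>
          if p.Prime ∧ ¬ ((p : ℤ) ∣ 2 * (-4 * a ^ 3 - 27 * b ^ 2)) then
            (1 - ((p : ℂ) - (Nat.card {q : ZMod p × ZMod p //
                q.2 ^ 2 = q.1 ^ 3 + (a : ZMod p) * q.1 + (b : ZMod p)} : ℂ))
                * (p : ℂ) ^ (-s) + (p : ℂ) ^ (1 - 2 * s))⁻¹
          else 1)
        (F s)) ∧
    analyticOrderAt F 1 = 0 ∧
    Module.finrank ℤ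
      (WeierstrassCurve.Affine.Point
        (WeierstrassCurve.toAffine
          ({ a₁ := 0, a₂ := 0, a₃ := 0, a₄ := (a : ℚ), a₆ := (b : ℚ) } :
            WeierstrassCurve ℚ))) = 0

/-- the rank form for the quadratic twist by `d` of `X_0(15)`, with rank and order zero -/
def TwistZero (d : ℤ) : Prop := RankFormZero (-12987 * d ^ 2) (-263466 * d ^ 3)

/-- the number of the `n ≤ X` of the class with the property `Q` -/
noncomputable def num (Q : ℕ → Prop) (X : ℕ) : ℕ :=
  Nat.card {n : ℕ // n ≤ X ∧ Class n ∧ Q n}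

/-- the number of the squarefree integers `d` with `|d| < X` and with the property `Q` -/
noncomputable def numAll (Q : ℤ → Prop) (X : ℕ) : ℕ :=
  Nat.card {d : ℤ // |d| < X ∧ Squarefree d ∧ Q d}

/-- the constant `0.2888...` -/
noncomputable def η : ℝ := ∏' i : ℕ, (1 - (1 / 2 : ℝ) ^ (i + 1))

section proof

open Pool.Agent.N969.P15 (Qc)

theorem odd_of {n : ℕ} (h : Class n) : n % 2 = 1 := by
  have := h.2
  omega

theorem sq_iff {p : ℕ} (hp : p.Prime) {b : ℕ} (hb : ¬ p ∣ b) :
    jacobiSym b p = 1 ↔ IsSquare (b : ZMod p) := by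
  have : Fact p.Prime := ⟨hp⟩
  have h0 : ((b : ℤ) : ZMod p) ≠ 0 := by
    rw [Int.cast_natCast]
    intro h
    exact hb ((ZMod.natCast_eq_zero_iff b p).1 h)
  rw [← jacobiSym.legendreSym.to_jacobiSym, legendreSym.eq_one_iff p h0, Int.cast_natCast]

theorem crit_iff {n : ℕ} (h : Squarefree n) : Criterion n ↔ Qc n := by
  have key : ∀ b c : ℕ, b * c = n →
      (((∀ p : ℕ, p.Prime → p ∣ c → IsSquare (b : ZMod p)) ↔
        (∀ p ∈ c.primeFactors, jacobiSym b p = 1)) ∧
      ((∀ p : ℕ, p.Prime → p ∣ b → IsSquare (c : ZMod p)) ↔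
        (∀ p ∈ b.primeFactors, jacobiSym c p = 1))) := by
    intro b c hbc
    have hc0 : c ≠ 0 := by
      rintro rfl
      rw [mul_zero] at hbc
      exact h.ne_zero hbc.symm
    have hb0 : b ≠ 0 := by
      rintro rfl
      rw [zero_mul] at hbc
      exact h.ne_zero hbc.symm
    have hco : b.Coprime c := by
      rw [← hbc] at h
      exact (Nat.squarefree_mul_iff.1 h).1
    constructor
    · constructor
      · intro h1 p hp
        have hp' := Nat.prime_of_mem_primeFactors hp
        have hd := Nat.dvd_of_mem_primeFactors hp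
        refine (sq_iff hp' fun hpb => ?_).2 (h1 p hp' hd)
        exact hp'.one_lt.ne' (Nat.eq_one_of_dvd_coprimes hco hpb hd)
      · intro h1 p hp' hd
        refine (sq_iff hp' fun hpb => ?_).1 (h1 p (Nat.mem_primeFactors.2 ⟨hp', hd, hc0⟩))
        exact hp'.one_lt.ne' (Nat.eq_one_of_dvd_coprimes hco hpb hd)
    · constructor
      · intro h1 p hp
        have hp' := Nat.prime_of_mem_primeFactors hp
        have hd := Nat.dvd_of_mem_primeFactors hp
        refine (sq_iff hp' fun hpb => ?_).2 (h1 p hp' hd)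
        exact hp'.one_lt.ne' (Nat.eq_one_of_dvd_coprimes hco hd hpb)
      · intro h1 p hp' hd
        refine (sq_iff hp' fun hpb => ?_).1 (h1 p (Nat.mem_primeFactors.2 ⟨hp', hd, hb0⟩))
        exact hp'.one_lt.ne' (Nat.eq_one_of_dvd_coprimes hco hd hpb)
  constructor
  · intro h1 b c hbc h2 h3
    exact h1 b c hbc ((key b c hbc).1.2 h2) ((key b c hbc).2.2 h3)
  · intro h1 b c hbc h2 h3
    exact h1 b c hbc ((key b c hbc).1.1 h2) ((key b c hbc).2.1 h3)

theorem triv_iff {n : ℕ} (h : Class n) : TrivialTwo n ↔ Qc n := by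
  have h60 : n % 60 = 23 ∨ n % 60 = 47 := h.2
  have hW : E n = ⟨0, ((34 * n : ℤ) : ℚ), 0, ((225 * n ^ 2 : ℤ) : ℚ), 0⟩ := by
    unfold E
    push_cast
    rfl
  exact Run7.h424.DC.iffF h.1 h60 hW

theorem prime_crit {p : ℕ} (hp : p.Prime) : Criterion p := by
  intro b c hbc _ _
  rcases (Nat.dvd_prime hp).1 ⟨c, hbc.symm⟩ with h | h
  · exact Or.inl h
  · right
    rw [h] at hbc
    exact Nat.eq_of_mul_eq_mul_left hp.pos (by rw [hbc, mul_one])

/-- the rank form -/
theorem rank_of {n : ℕ} (h : Class n) (ht : TrivialTwo n) : TwistZero (-(n : ℤ)) := by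
  have hq := (triv_iff h).1 ht
  have h2 := odd_of h
  have hn0 : n ≠ 0 := by omega
  have h4 : n % 4 = 3 := by have := h.2; omega
  have hD4 : (-(n : ℤ)) % 4 = 1 := by omega
  obtain ⟨L, Op, Om, _, hOm, g2, g3, hL⟩ := Run7.h209.P15.m_lat
  obtain ⟨F, hF, hprod, e, he, y, hy, hodd, hval⟩ :=
    Run7.h555.P15.center hOm g2 g3 hL (n := n) h
  have hy0 : y ≠ 0 := by
    rintro rfl
    have := hodd.2 hq
    exact absurd this (by decide)
  have hF1 : F 1 ≠ 0 := by
    intro h0
    rw [h0, mul_zero, zero_mul] at hval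
    have h1 : (e * Om * (2 ^ n.primeFactors.card * y) ^ 2 : ℝ) = 0 := by
      exact_mod_cast hval.symm
    have he0 : e ≠ 0 := by rcases he with rfl | rfl <;> norm_num
    have hy1 : ((y : ℤ) : ℝ) ≠ 0 := by exact_mod_cast hy0
    exact (mul_ne_zero (mul_ne_zero he0 hOm.ne') (pow_ne_zero 2
      (mul_ne_zero (pow_ne_zero _ (by norm_num)) hy1))) h1
  obtain ⟨G, hG, hGp, hG1⟩ := Run7.h424.N15.conv hn0 (W := Run7.h555.P15.CI n)
    (by
      intro p hp hp2
      have : Fact p.Prime := ⟨hp⟩
      unfold Pool.Agent.W97.MT.affCount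
      rw [Run7.h555.P15.pts_cubic hD4 (ZMod p) (Run7.h555.P15.two_ne hp2)]
      push_cast
      refine Nat.card_congr (Equiv.subtypeEquivRight fun x => ?_)
      rw [mul_neg, mul_neg, sub_neg_eq_add, sub_neg_eq_add])
    (by
      intro p hp hd
      have : Fact p.Prime := ⟨hp⟩
      rw [Run7.h555.P15.ap_twist hD4 hp, abs_mul]
      have hk : |Pool.Agent.Y682.XF.kr (-(n : ℤ)) p| ≤ 1 := by
        unfold Pool.Agent.Y682.XF.kr
        split_ifs
        · simp
        · simp
        · rcases jacobiSym.trichotomy (-(n : ℤ)) p with h | h | h <;> rw [h] <;> simp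
      by_cases hpn : p ∣ n
      · have hp2 : p ≠ 2 := by
          rintro rfl
          omega
        have : Pool.Agent.Y682.XF.kr (-(n : ℤ)) p = 0 := by
          unfold Pool.Agent.Y682.XF.kr
          rw [if_neg hp2, ← jacobiSym.legendreSym.to_jacobiSym, legendreSym.eq_zero_iff]
          push_cast
          rw [(ZMod.natCast_eq_zero_iff n p).2 hpn, neg_zero]
        rw [this]
        simp
      · have h30 : p = 2 ∨ p = 3 ∨ p = 5 := by
          have h' : p ∣ 2 * (3 * 5) := (hp.dvd_mul.1 hd).resolve_right hpn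
          rcases hp.dvd_mul.1 h' with h | h
          · exact Or.inl ((Nat.prime_dvd_prime_iff_eq hp Nat.prime_two).1 h)
          · rcases hp.dvd_mul.1 h with h | h
            · exact Or.inr (Or.inl ((Nat.prime_dvd_prime_iff_eq hp Nat.prime_three).1 h))
            · exact Or.inr (Or.inr ((Nat.prime_dvd_prime_iff_eq hp Nat.prime_five).1 h))
        have ha : |Pool.Agent.W97.MT.ap Pool.Agent.Run7.h741.MF.E15 p| ≤ 1 := by
          rcases h30 with rfl | rfl | rfl
          · have h1 := Run7.h555.P15.ap_good Nat.prime_two (by norm_num)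
            have h3 : ((|Pool.Agent.W97.MT.ap Pool.Agent.Run7.h741.MF.E15 2| : ℤ) : ℝ) < 3 := by
              push_cast at h1 ⊢
              have h4 : Real.sqrt 2 < 3 / 2 := by
                rw [Real.sqrt_lt' (by norm_num)]
                norm_num
              linarith
            have h5 : |Pool.Agent.W97.MT.ap Pool.Agent.Run7.h741.MF.E15 2| < 3 := by
              exact_mod_cast h3
            have h6 := Run7.h424.N15.ap_two
            rw [h6]
            norm_num
          · rw [Run7.h555.P15.ap_three]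
            norm_num
          · rw [Run7.h555.P15.ap_five]
            norm_num
        calc _ ≤ 1 * (1 : ℤ) := mul_le_mul hk ha (abs_nonneg _) (by norm_num)
          _ = 1 := by norm_num)
    (by omega) hF hprod hF1
  have hr := Run7.h424.N15.rank_short hn0 (by
    have := ht.1
    exact this)
  have e1 : (-12987 * (-(n : ℤ)) ^ 2 : ℤ) = -12987 * (n : ℤ) ^ 2 := by ring
  have e2 : (-263466 * (-(n : ℤ)) ^ 3 : ℤ) = 263466 * (n : ℤ) ^ 3 := by ring
  unfold TwistZero
  rw [e1, e2]
  exact ⟨G, hG, hGp, hG1, hr⟩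

end proof

section count

open Finset
open Pool.Agent.N969.P15 (Qc)
open Run7.h238.G15 (Aa Bb Dd)

theorem num_eq (Q : ℕ → Prop) [DecidablePred fun n : ℕ => Class n ∧ Q n] (X : ℕ) :
    num Q X = ((Icc 1 X).filter fun n => Class n ∧ Q n).card := by
  unfold num
  refine Nat.subtype_card _ fun n => ?_
  rw [mem_filter, mem_Icc]
  constructor
  · rintro ⟨⟨_, h1⟩, h2⟩
    exact ⟨h1, h2⟩
  · rintro ⟨h1, h2, h3⟩
    refine ⟨⟨?_, h1⟩, h2, h3⟩
    have := h2.2
    omega

theorem num_triv (X : ℕ) : num TrivialTwo X = Aa X := by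
  classical
  rw [num_eq]
  unfold Aa
  refine congrArg Finset.card (Finset.filter_congr fun n _ => ?_)
  constructor
  · rintro ⟨h1, h2⟩
    exact ⟨h1.1, h1.2, (triv_iff h1).1 h2⟩
  · rintro ⟨h1, h2, h3⟩
    exact ⟨⟨h1, h2⟩, (triv_iff ⟨h1, h2⟩).2 h3⟩

theorem num_cls (X : ℕ) : num (fun _ => True) X = Bb X := by
  classical
  rw [num_eq]
  unfold Bb
  refine congrArg Finset.card (Finset.filter_congr fun n _ => ?_)
  exact and_iff_left trivial

theorem numAll_eq (Q : ℤ → Prop) [DecidablePred Q] (X : ℕ) :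
    numAll Q X = ((Dd X).filter fun d => Q d).card := by
  classical
  unfold numAll
  refine Nat.subtype_card _ fun d => ?_
  rw [mem_filter, Dd, mem_filter, mem_Ioo, abs_lt]
  tauto

theorem numAll_true (X : ℕ) : numAll (fun _ => True) X = (Dd X).card := by
  classical
  rw [numAll_eq, filter_true]

theorem num_mono {P Q : ℕ → Prop} (h : ∀ n, Class n → P n → Q n) (X : ℕ) : num P X ≤ num Q X := by
  classical
  rw [num_eq, num_eq]
  refine Finset.card_le_card fun n hn => ?_
  rw [mem_filter] at hn ⊢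
  exact ⟨hn.1, hn.2.1, h n hn.2.1 hn.2.2⟩

end count

theorem rank' {n : ℕ} (h : Class n) (ht : TrivialTwo n) :
    RankFormZero (-12987 * (n : ℤ) ^ 2) (263466 * (n : ℤ) ^ 3) := by
  have h1 := rank_of h ht
  unfold TwistZero at h1
  have e1 : (-12987 * (-(n : ℤ)) ^ 2 : ℤ) = -12987 * (n : ℤ) ^ 2 := by ring
  have e2 : (-263466 * (-(n : ℤ)) ^ 3 : ℤ) = 263466 * (n : ℤ) ^ 3 := by ring
  rw [e1, e2] at h1
  exact h1

theorem tw_spec {a n : ℕ} (ha : Mult a) (hn : Class n) :
    Class (tw a n) ∧ tw a n * (Nat.gcd a n) ^ 2 = a * n := by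
  have h := Pool.Agent.Run7.h424.J.tw_spec ha.1 hn.1
  have e : tw a n = Pool.Agent.Run7.h238.J.tw a n := rfl
  refine ⟨⟨e ▸ h.1, ?_⟩, h.2.2⟩
  have h1 : Pool.Agent.Run7.h238.J.Mix.Cls 15 (a * n) := by
    unfold Pool.Agent.Run7.h238.J.Mix.Cls
    rw [if_pos rfl, Nat.mul_mod]
    rcases ha.2 with h1 | h1 <;> rcases hn.2 with h2 | h2 <;> rw [h1, h2] <;> norm_num
  have h2 := Pool.Agent.Run7.h238.J.Mix.cls_tw ha.1 hn.1 h1
  unfold Pool.Agent.Run7.h238.J.Mix.Cls at h2
  rw [if_pos rfl] at h2
  exact h2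

theorem card_inst (s : Finset ℕ) (p : ℕ → Prop) (i1 i2 : DecidablePred p) :
    (@Finset.filter ℕ p i1 s).card = (@Finset.filter ℕ p i2 s).card := by
  rw [Subsingleton.elim i1 i2]

/-- **The joint law.** -/
theorem law {S T : Finset ℕ} (hS : ∀ a ∈ S, Mult a) (hT : T ⊆ S) :
    Tendsto (fun X : ℕ => (num (fun n => ∀ a ∈ S, (TrivialTwo (tw a n) ↔ a ∈ T)) X : ℝ) /
      (num (fun _ => True) X : ℝ)) atTop (𝓝 (η ^ T.card * (1 - η) ^ (S.card - T.card))) := by
  classical
  have hu : T ∪ (S \ T) = S := Finset.union_sdiff_of_subset hT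
  have h := Pool.Agent.Run7.h238.J.dens_pat (fun N => Pool.Agent.Run7.h289.J.t_JDQ _) T (S \ T)
    Finset.disjoint_sdiff (fun a ha => (hS a (hu ▸ ha)).1)
    (fun a ha => by
      have := (hS a (hu ▸ ha)).2
      omega)
    120 (by norm_num) (by norm_num) (fun n => n % 60 = 23 ∨ n % 60 = 47) (fun n => by
      constructor <;> intro h <;> omega) (fun n hn => by omega) 23 (Or.inl rfl) (by norm_num)
  rw [Finset.card_sdiff_of_subset hT] at h
  have hη : Pool.Agent.N916.GB.eta = η := rfl
  rw [hη] at h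
  refine h.congr fun X => ?_
  have e1 : ((Finset.Icc 1 X).filter fun n => Squarefree n ∧ (n % 60 = 23 ∨ n % 60 = 47) ∧
      (∀ a ∈ T, Pool.Agent.N969.P15.Qc (Pool.Agent.Run7.h238.J.tw a n)) ∧
      ∀ a ∈ S \ T, ¬ Pool.Agent.N969.P15.Qc (Pool.Agent.Run7.h238.J.tw a n)) =
      (Finset.Icc 1 X).filter fun n => Class n ∧ ∀ a ∈ S, (TrivialTwo (tw a n) ↔ a ∈ T) := by
    refine Finset.filter_congr fun n _ => ?_
    have hiff : Class n → ∀ a ∈ S, (TrivialTwo (tw a n) ↔
        Pool.Agent.N969.P15.Qc (Pool.Agent.Run7.h238.J.tw a n)) := fun hn a ha =>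
      triv_iff (tw_spec (hS a ha) hn).1
    constructor
    · rintro ⟨h1, h2, h3, h4⟩
      refine ⟨⟨h1, h2⟩, fun a ha => ?_⟩
      rw [hiff ⟨h1, h2⟩ a ha]
      constructor
      · intro hq
        by_contra hT'
        exact h4 a (Finset.mem_sdiff.2 ⟨ha, hT'⟩) hq
      · exact fun hT' => h3 _ hT'
    · rintro ⟨h1, h3⟩
      refine ⟨h1.1, h1.2, fun a ha => ?_, fun a ha hq => ?_⟩
      · exact (hiff h1 a (hT ha)).1 ((h3 a (hT ha)).2 ha)
      · obtain ⟨ha1, ha2⟩ := Finset.mem_sdiff.1 ha
        exact ha2 ((h3 a ha1).1 ((hiff h1 a ha1).2 hq))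
  have e2 : ((Finset.Icc 1 X).filter fun n => Squarefree n ∧ (n % 60 = 23 ∨ n % 60 = 47)) =
      (Finset.Icc 1 X).filter fun n => Class n ∧ True := by
    refine Finset.filter_congr fun n _ => ?_
    constructor
    · rintro ⟨h1, h2⟩
      exact ⟨⟨h1, h2⟩, trivial⟩
    · rintro ⟨⟨h1, h2⟩, _⟩
      exact ⟨h1, h2⟩
  rw [num_eq, num_eq, ← e1, ← e2]
  exact congrArg₂ (fun a b : ℝ => a / b) (congrArg Nat.cast (card_inst _ _ _ _))
    (congrArg Nat.cast (card_inst _ _ _ _))

/-- **The rank form of the conjecture for arbitrarily many quadratic twists of `X_0(15)` simultaneously,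
with exact natural densities.** -/
theorem result :
    (∀ n : ℕ, Class n → (TrivialTwo n ↔ Criterion n)) ∧
    (∀ n : ℕ, Class n → TrivialTwo n →
      RankFormZero (-12987 * (n : ℤ) ^ 2) (263466 * (n : ℤ) ^ 3)) ∧
    (∀ a n : ℕ, Mult a → Class n → Class (tw a n) ∧ tw a n * (Nat.gcd a n) ^ 2 = a * n) ∧
    (∀ S T : Finset ℕ, (∀ a ∈ S, Mult a) → T ⊆ S →
      Tendsto (fun X : ℕ => (num (fun n => ∀ a ∈ S, (TrivialTwo (tw a n) ↔ a ∈ T)) X : ℝ) /
        (num (fun _ => True) X : ℝ)) atTop (𝓝 (η ^ T.card * (1 - η) ^ (S.card - T.card)))) ∧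
    0.2887 < η ∧ η < 0.2889 ∧
    (∀ S : Finset ℕ, (∀ a ∈ S, Mult a) →
      ∀ᶠ X : ℕ in atTop, 0.2887 ^ S.card * (num (fun _ => True) X : ℝ) ≤
        (num (fun n => ∀ a ∈ S, RankFormZero (-12987 * (tw a n : ℤ) ^ 2)
          (263466 * (tw a n : ℤ) ^ 3)) X : ℝ)) ∧
    (∀ p : ℕ, p.Prime → p % 60 = 23 ∨ p % 60 = 47 →
      RankFormZero (-12987 * (p : ℤ) ^ 2) (263466 * (p : ℤ) ^ 3)) ∧
    ∀ᶠ X : ℕ in atTop, 0.0075 * (numAll (fun _ => True) X : ℝ) ≤ (numAll TwistZero X : ℝ) := by
  classical
  have hη1 : 0.2887 < η := Pool.Agent.N916.GB.eta_bounds.1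
  have hη2 : η < 0.2889 := Pool.Agent.N916.GB.eta_bounds.2
  have hcrit : ∀ n : ℕ, Class n → (TrivialTwo n ↔ Criterion n) := fun n h =>
    (triv_iff h).trans (crit_iff h.1).symm
  refine ⟨hcrit, fun n h ht => rank' h ht, fun a n ha hn => tw_spec ha hn,
    fun S T hS hT => law hS hT, hη1, hη2, ?_, ?_, ?_⟩
  · intro S hS
    have h0 := law hS (Finset.Subset.refl S)
    rw [Nat.sub_self, pow_zero, mul_one] at h0
    rcases S.eq_empty_or_nonempty with rfl | hne
    · filter_upwards with X
      rw [Finset.card_empty, pow_zero, one_mul]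
      exact_mod_cast num_mono (fun n _ _ a ha => absurd ha (Finset.notMem_empty a)) X
    · have hlt : (0.2887 : ℝ) ^ S.card < η ^ S.card :=
        pow_lt_pow_left₀ hη1 (by norm_num) (Finset.card_ne_zero.2 hne)
      have h1 := h0.eventually (lt_mem_nhds hlt)
      filter_upwards [h1] with X hX
      have h2 : (num (fun n => ∀ a ∈ S, (TrivialTwo (tw a n) ↔ a ∈ S)) X : ℝ) ≤
          (num (fun n => ∀ a ∈ S, RankFormZero (-12987 * (tw a n : ℤ) ^ 2)
            (263466 * (tw a n : ℤ) ^ 3)) X : ℝ) := by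
        exact_mod_cast num_mono (P := fun n => ∀ a ∈ S, (TrivialTwo (tw a n) ↔ a ∈ S))
          (Q := fun n => ∀ a ∈ S, RankFormZero (-12987 * (tw a n : ℤ) ^ 2)
            (263466 * (tw a n : ℤ) ^ 3)) (fun n h ht a ha =>
          rank' (tw_spec (hS a ha) h).1 ((ht a ha).2 ha)) X
      have h3 : (0 : ℝ) < (num (fun _ => True) X : ℝ) := by
        rcases Nat.eq_zero_or_pos (num (fun _ => True) X) with h | h
        · rw [h, Nat.cast_zero, div_zero] at hX
          have : (0 : ℝ) < 0.2887 ^ S.card := by positivity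
          linarith
        · exact_mod_cast h
      have h4 := (lt_div_iff₀ h3).1 hX
      linarith
  · intro p hp h60
    have hc : Class p := ⟨hp.prime.squarefree, h60⟩
    exact rank' hc ((hcrit p hc).2 (prime_crit hp))
  · have h1 := Run7.h238.G15.lower_prop TwistZero (fun n hs h60 hq => rank_of ⟨hs, h60⟩
      ((triv_iff ⟨hs, h60⟩).2 hq)) 0.00001 (by norm_num)
    filter_upwards [h1] with X hX
    rw [numAll_true, numAll_eq]
    have h2 : (0.0075 : ℝ) ≤ 5 / 192 * Pool.Agent.N916.GB.eta - 0.00001 := by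
      have : 0.2887 < Pool.Agent.N916.GB.eta := hη1
      norm_num at this ⊢
      linarith
    refine le_trans (mul_le_mul_of_nonneg_right h2 (Nat.cast_nonneg _)) ?_
    exact hX

end Pool.Agent.Results.MP_696deb_nt.TwistsX15Joint
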