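import Pool.Agent.Run7.h89.P21.Cen
import Pool.Agent.Run7.h209.P21.M
import Pool.Agent.Run7.h289.D18.Sc
import Pool.Agent.Run7.h843.G3
import Pool.Agent.Run7.h424.N15.Gen
import Pool.Agent.Run7.h424.N15.Crit
import Pool.Agent.Run7.h424.N15.Low
import Pool.Agent.Run7.h238.J.Grand
import Pool.Agent.Run7.h289.J.Cl

/-!
# The rank form of the Birch and Swinnerton-Dyer conjecture for the quadratic twists of `X_0(21)`:
# exact natural densities, and independence for all finite sets of multipliers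

`E_n : y² = x (x - 9 n) (x - 16 n)` is the quadratic twist by `-n` of
`X_0(21) : y² = x (x + 9) (x + 16)`, a curve without complex multiplication; its short model is
`y² = x³ - 5211 n² x + 31050 n³` (put `x = 9 X - 75 n`). The class consists of the squarefree `n`
congruent to `19`, `31` or `55` modulo `84`, in the natural order. A multiplier is a squarefree
`a` congruent to `1`, `25` or `37` modulo `84`; for `n` of the class the squarefree part `sqf a n` of
`a n` is in the class again. Let `η = ∏_{i ≥ 1} (1 - 2^{-i}) = 0.2888...`.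
* For `n` of the class, `E_n(ℚ)` is finite and `Ш(E_n/ℚ)[2^∞] = 0` if and only if `n` is not the
  product of two numbers `b, c > 1` such that `b` is a square modulo the primes dividing `c` and `c`
  is a square modulo the primes dividing `b`. Then the rank form of the conjecture holds for
  `E_n`, with rank and order of vanishing zero (the conclusion of the frozen statement S17291).
* **Independence.** For every finite set `S` of multipliers and every subset `T`, exactly the
  proportion `η^#T (1 - η)^(#S - #T)` of the class has this property for the twists by `- a n`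
  with `a` in `T` and for no other `a` in `S`; the same holds in every arithmetic progression of
  the class prime to its modulus.
* So, for every finite set `S` of multipliers, the rank form holds, with order and rank zero, for all
  twists by `- a n`, `a ∈ S`, at once for more than the proportion `0.2887^#S` of the class, and for
  at least one of them for all but the proportion `0.7113^#S`.
* It holds for all primes of the class and for more than `0.78` percent of all quadratic twists of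
  `X_0(21)`.

The proof (files of this project): the complete 2-descent (`Run7/h289/D18`); the modularity of
`X_0(21)` with its modular symbols (`Run7/h741/MG`, `Run7/h209/P21`, `Run7/h843/P21`,
`Run7/h89/P21/Form`, `Run7/h135/P21/Dim*`); the twisted Euler product, the functional equation and the
central value (`Run7/h555/TL`, `Run7/h89/P21/Cen`); the central value as a square, by an identity
between modular symbols and numbers of representations by ternary quadratic forms
(`Run7/h135/P21`, `Run7/h483/P21`, `Run7/h238/P21`, `Run7/h89/P21/Fin`); the natural density of the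
criterion (`N916/GB`, `Run7/h843/G3`); the joint law of the criterion for finitely many multipliers
(`Run7/h238/J`, `Run7/h424/J`, `Run7/h209/J`, `Run7/h843/J`, `Run7/h89/J`, `Run7/h289/J`).
-/

set_option autoImplicit false

open Filter Topology

namespace Pool.Agent.Results.MP_696deb_nt.TwistsX21Joint

open Pool.Agent.TH841.NF.D (Sha)

/-- the curve `y² = x (x - 9 n) (x - 16 n)` over `ℚ` -/
def E (n : ℕ) : WeierstrassCurve ℚ :=
  { a₁ := 0, a₂ := -25 * n, a₃ := 0, a₄ := 144 * (n : ℚ) ^ 2, a₆ := 0 }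

/-- the class -/
def Class (n : ℕ) : Prop := Squarefree n ∧ (n % 84 = 19 ∨ n % 84 = 31 ∨ n % 84 = 55)

/-- the multipliers -/
def Mult (a : ℕ) : Prop := Squarefree a ∧ (a % 84 = 1 ∨ a % 84 = 25 ∨ a % 84 = 37)

/-- the squarefree part of the product of two squarefree numbers -/
def sqf (a n : ℕ) : ℕ := a * n / Nat.gcd a n ^ 2

/-- `E_n(ℚ)` is finite and `Ш(E_n/ℚ)[2^∞] = 0` -/
def TrivialTwo (n : ℕ) : Prop :=
  Finite (E n).toAffine.Point ∧ ∀ k : ℕ, ∀ x : Sha (E n), 2 ^ k • x = 0 → x = 0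

/-- whenever `b c = n`, where `b` is a square modulo all primes dividing `c` and `c` is a square modulo
all primes dividing `b`, then `b = 1` or `c = 1` -/
def Criterion (n : ℕ) : Prop :=
  ∀ b c : ℕ, b * c = n → (∀ p : ℕ, p.Prime → p ∣ c → IsSquare (b : ZMod p)) →
    (∀ p : ℕ, p.Prime → p ∣ b → IsSquare (c : ZMod p)) → b = 1 ∨ c = 1

open Classical in
/-- The rank form of the conjecture for `y² = x³ + a x + b`, with rank zero: the incomplete Euler product
over the primes `p ∤ 2Δ` extends to an entire function `F` with `ord_{s=1} F = 0 = rank`. -/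
def RankFormZero (a b : ℤ) : Prop :=
  ∃ F : ℂ → ℂ, Differentiable ℂ F ∧
    (∀ s : ℂ, (3 : ℝ) / 2 < s.re →
      HasProd
        (fun p : ℕ =>
          if p.Prime ∧ ¬ ((p : ℤ) ∣ 2 * (-4 * a ^ 3 - 27 * b ^ 2)) then
            (1 - ((p : ℂ) - (Nat.card {q : ZMod p × ZMod p //
                q.2 ^ 2 = q.1 ^ 3 + (a : ZMod p) * q.1 + (b : ZMod p)} : ℂ))
                * (p : ℂ) ^ (-s) + (p : ℂ) ^ (1 - 2 * s))⁻¹
          else 1)
        (F s)) ∧
    analyticOrderAt F 1 = 0 ∧
    Module.finrank ℤ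
      (WeierstrassCurve.Affine.Point
        (WeierstrassCurve.toAffine
          ({ a₁ := 0, a₂ := 0, a₃ := 0, a₄ := (a : ℚ), a₆ := (b : ℚ) } :
            WeierstrassCurve ℚ))) = 0

/-- the rank form for the quadratic twist by `d` of `X_0(21)`, with rank and order zero -/
def TwistZero (d : ℤ) : Prop := RankFormZero (-5211 * d ^ 2) (-31050 * d ^ 3)

/-- the number of the `n ≤ X` of the class with the property `Q` -/
noncomputable def num (Q : ℕ → Prop) (X : ℕ) : ℕ :=
  Nat.card {n : ℕ // n ≤ X ∧ Class n ∧ Q n}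

/-- the number of the squarefree integers `d` with `|d| < X` and with the property `Q` -/
noncomputable def numAll (Q : ℤ → Prop) (X : ℕ) : ℕ :=
  Nat.card {d : ℤ // |d| < X ∧ Squarefree d ∧ Q d}

/-- the constant `0.2888...` -/
noncomputable def η : ℝ := ∏' i : ℕ, (1 - (1 / 2 : ℝ) ^ (i + 1))

section proof

open Pool.Agent.N969.P15 (Qc)

theorem odd_of {n : ℕ} (h : Class n) : n % 2 = 1 := by
  have := h.2
  omega

theorem triv_iff {n : ℕ} (h : Class n) : TrivialTwo n ↔ Qc n := by
  have hW : E n = ⟨0, ((-25 * n : ℤ) : ℚ), 0, ((144 * n ^ 2 : ℤ) : ℚ), 0⟩ := by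
    unfold E
    push_cast
    rfl
  exact Pool.Agent.Run7.h289.D18.iff21 h.1 h.2 hW

theorem prime_crit {p : ℕ} (hp : p.Prime) : Criterion p := by
  intro b c hbc _ _
  rcases (Nat.dvd_prime hp).1 ⟨c, hbc.symm⟩ with h | h
  · exact Or.inl h
  · right
    rw [h] at hbc
    exact Nat.eq_of_mul_eq_mul_left hp.pos (by rw [hbc, mul_one])

/-- the rank form -/
theorem rank' {n : ℕ} (h : Class n) (ht : TrivialTwo n) :
    RankFormZero (-5211 * (n : ℤ) ^ 2) (31050 * (n : ℤ) ^ 3) := by
  have hq := (triv_iff h).1 ht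
  have h2 := odd_of h
  have hn0 : n ≠ 0 := by omega
  have hnz : (n : ℤ) ≠ 0 := by exact_mod_cast hn0
  have h4 : n % 4 = 3 := by have := h.2; omega
  have hD4 : (-(n : ℤ)) % 4 = 1 := by omega
  obtain ⟨L, Op, Om, _, hOm, g2, g3, hL⟩ := Run7.h209.P21.m_lat
  obtain ⟨F, hF, hprod, y, hy, hodd, hval⟩ :=
    Run7.h89.P21.center hOm g2 g3 hL (n := n) h
  have hy0 : y ≠ 0 := by
    rintro rfl
    have := hodd.2 hq
    exact absurd this (by decide)
  have hF1 : F 1 ≠ 0 := by
    intro h0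
    rw [h0, mul_zero, zero_mul] at hval
    have h1 : (Om * (2 ^ n.primeFactors.card * y) ^ 2 : ℝ) = 0 := by
      exact_mod_cast hval.symm
    have hy1 : ((y : ℤ) : ℝ) ≠ 0 := by exact_mod_cast hy0
    exact (mul_ne_zero hOm.ne' (pow_ne_zero 2
      (mul_ne_zero (pow_ne_zero _ (by norm_num)) hy1))) h1
  have ea : (81 * (144 * (n : ℤ) ^ 2) - 27 * (-25 * (n : ℤ)) ^ 2 : ℤ) = -5211 * (n : ℤ) ^ 2 := by
    ring
  have eb : (54 * (-25 * (n : ℤ)) ^ 3 - 243 * (-25 * (n : ℤ)) * (144 * (n : ℤ) ^ 2) : ℤ) =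
      31050 * (n : ℤ) ^ 3 := by
    ring
  have hdisc : ∀ p : ℕ, p.Prime → ((p : ℤ) ∣ 2 * (-4 * (-5211 * (n : ℤ) ^ 2) ^ 3 -
      27 * (31050 * (n : ℤ) ^ 3) ^ 2) ↔ p ∣ 42 * n) := by
    intro p hp
    have e : 2 * (-4 * (-5211 * (n : ℤ) ^ 2) ^ 3 - 27 * (31050 * (n : ℤ) ^ 3) ^ 2) =
        ((2 ^ 9 * 3 ^ 16 * 7 ^ 2 * n ^ 6 : ℕ) : ℤ) := by
      push_cast; ring
    rw [e, Int.natCast_dvd_natCast]
    constructor
    · intro h
      rcases hp.dvd_mul.1 h with h | h
      · rcases hp.dvd_mul.1 h with h | h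
        · rcases hp.dvd_mul.1 h with h | h
          · exact (hp.dvd_of_dvd_pow h).trans ⟨21 * n, by ring⟩
          · exact (hp.dvd_of_dvd_pow h).trans ⟨14 * n, by ring⟩
        · exact (hp.dvd_of_dvd_pow h).trans ⟨6 * n, by ring⟩
      · exact (hp.dvd_of_dvd_pow h).trans ⟨42, by ring⟩
    · intro h
      exact h.trans ⟨2 ^ 8 * 3 ^ 15 * 7 * n ^ 5, by ring⟩
  obtain ⟨G, hG, hGp, hG1⟩ := Run7.h424.N15.convG (M := 42 * n) (N := 21 * n)
    (W := Run7.h89.P21.CI n) (by positivity) hdisc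
    (fun p _ hd => hd.trans ⟨2, by ring⟩)
    (fun p hp hd => by
      have h' : p ∣ 2 * (21 * n) := by
        rw [show 2 * (21 * n) = 42 * n by ring]; exact hd
      rcases hp.dvd_mul.1 h' with h | h
      · right
        exact (Nat.prime_dvd_prime_iff_eq hp Nat.prime_two).1 h
      · exact Or.inl h)
    (by
      intro p hp hd
      have : Fact p.Prime := ⟨hp⟩
      have hp2 : p ≠ 2 := by
        rintro rfl
        exact hd ⟨21 * n, by ring⟩
      have h3 : (3 : ZMod p) ≠ 0 := by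
        intro h0
        have h1 : ((3 : ℕ) : ZMod p) = 0 := by exact_mod_cast h0
        rw [ZMod.natCast_eq_zero_iff] at h1
        exact hd (h1.trans ⟨14 * n, by ring⟩)
      rw [← ea, ← eb, Run7.h424.N15.pts_shortG h3]
      unfold Pool.Agent.W97.MT.affCount
      rw [Run7.h89.P21.pts_cubic hD4 (ZMod p) (Run7.h89.P21.two_ne hp2)]
      push_cast
      refine Nat.card_congr
        { toFun := fun x => ⟨(x.1.1 + 9 * n, x.1.2), ?_⟩
          invFun := fun x => ⟨(x.1.1 - 9 * n, x.1.2), ?_⟩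
          left_inv := fun x => ?_
          right_inv := fun x => ?_ }
      · obtain ⟨⟨u, v⟩, hx⟩ := x
        show v ^ 2 = (u + 9 * n) ^ 3 + -25 * n * (u + 9 * n) ^ 2 + 144 * n ^ 2 * (u + 9 * n)
        have hx' : v ^ 2 = u * (u - 9 * -n) * (u + 7 * -n) := hx
        linear_combination hx'
      · obtain ⟨⟨u, v⟩, hx⟩ := x
        show v ^ 2 = (u - 9 * n) * (u - 9 * n - 9 * -n) * (u - 9 * n + 7 * -n)
        have hx' : v ^ 2 = u ^ 3 + -25 * n * u ^ 2 + 144 * n ^ 2 * u := hx
        linear_combination hx'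
      · apply Subtype.ext
        apply Prod.ext
        · show x.1.1 + 9 * n - 9 * n = x.1.1
          ring
        · rfl
      · apply Subtype.ext
        apply Prod.ext
        · show x.1.1 - 9 * n + 9 * n = x.1.1
          ring
        · rfl)
    (by
      intro p hp hd
      have : Fact p.Prime := ⟨hp⟩
      rw [Run7.h89.P21.ap_twist hD4 hp, abs_mul]
      have hk : |Pool.Agent.Y682.XF.kr (-(n : ℤ)) p| ≤ 1 := by
        unfold Pool.Agent.Y682.XF.kr
        split_ifs
        · simp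
        · simp
        · rcases jacobiSym.trichotomy (-(n : ℤ)) p with h | h | h <;> rw [h] <;> simp
      by_cases hpn : p ∣ n
      · have hp2 : p ≠ 2 := by
          rintro rfl
          omega
        have : Pool.Agent.Y682.XF.kr (-(n : ℤ)) p = 0 := by
          unfold Pool.Agent.Y682.XF.kr
          rw [if_neg hp2, ← jacobiSym.legendreSym.to_jacobiSym, legendreSym.eq_zero_iff]
          push_cast
          rw [(ZMod.natCast_eq_zero_iff n p).2 hpn, neg_zero]
        rw [this]
        simp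
      · have h42 : p = 2 ∨ p = 3 ∨ p = 7 := by
          have h' : p ∣ 2 * (3 * 7) := (hp.dvd_mul.1 hd).resolve_right hpn
          rcases hp.dvd_mul.1 h' with h | h
          · exact Or.inl ((Nat.prime_dvd_prime_iff_eq hp Nat.prime_two).1 h)
          · rcases hp.dvd_mul.1 h with h | h
            · exact Or.inr (Or.inl ((Nat.prime_dvd_prime_iff_eq hp Nat.prime_three).1 h))
            · exact Or.inr (Or.inr ((Nat.prime_dvd_prime_iff_eq hp (by norm_num)).1 h))
        have ha : |Pool.Agent.W97.MT.ap Pool.Agent.Run7.h741.MG.E21 p| ≤ 1 := by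
          have hm := Run7.h209.P21.m_min
          unfold Pool.Agent.W97.MT.ap
          rcases h42 with rfl | rfl | rfl
          · rw [hm.1]
            norm_num
          · rw [hm.2.1]
            norm_num
          · rw [hm.2.2.1]
            norm_num
        calc _ ≤ 1 * (1 : ℤ) := mul_le_mul hk ha (abs_nonneg _) (by norm_num)
          _ = 1 := by norm_num)
    hF hprod hF1
  have hr := Run7.h424.N15.rank_shortG (A := -25 * (n : ℤ)) (B := 144 * (n : ℤ) ^ 2)
    (by
      have e : (144 * (n : ℤ) ^ 2) ^ 2 * ((-25 * (n : ℤ)) ^ 2 - 4 * (144 * (n : ℤ) ^ 2)) =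
          1016064 * (n : ℤ) ^ 6 := by ring
      rw [e]
      exact mul_ne_zero (by norm_num) (pow_ne_zero _ hnz))
    (by
      have h1 := ht.1
      have hW : E n = ⟨0, ((-25 * (n : ℤ) : ℤ) : ℚ), 0, ((144 * (n : ℤ) ^ 2 : ℤ) : ℚ), 0⟩ := by
        unfold E
        push_cast
        rfl
      rw [hW] at h1
      exact h1)
  rw [ea, eb] at hr
  exact ⟨G, hG, hGp, hG1, hr⟩

theorem rank_of {n : ℕ} (h : Class n) (ht : TrivialTwo n) : TwistZero (-(n : ℤ)) := by
  have h1 := rank' h ht
  have e1 : (-5211 * (-(n : ℤ)) ^ 2 : ℤ) = -5211 * (n : ℤ) ^ 2 := by ring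
  have e2 : (-31050 * (-(n : ℤ)) ^ 3 : ℤ) = 31050 * (n : ℤ) ^ 3 := by ring
  unfold TwistZero
  rw [e1, e2]
  exact h1

end proof

section count

open Finset
open Pool.Agent.N969.P15 (Qc)
open Run7.h238.G15 (Dd)
open Run7.h424.N15 (Cc)

/-- the residue classes -/
def Cl (n : ℕ) : Prop := n % 84 = 19 ∨ n % 84 = 31 ∨ n % 84 = 55

/-- the count with an additional condition -/
noncomputable def numP (P Q : ℕ → Prop) (X : ℕ) : ℕ :=
  Nat.card {n : ℕ // n ≤ X ∧ Squarefree n ∧ P n ∧ Q n}

theorem numP_eq {P : ℕ → Prop} (h0 : ∀ n, P n → Cl n) (Q : ℕ → Prop) (X : ℕ) [DecidablePred P]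
    [DecidablePred Q] :
    numP P Q X = ((Icc 1 X).filter fun n => Squarefree n ∧ P n ∧ Q n).card := by
  classical
  unfold numP
  refine Nat.subtype_card _ fun n => ?_
  rw [mem_filter, mem_Icc]
  constructor
  · rintro ⟨⟨_, h1⟩, h2⟩
    exact ⟨h1, h2⟩
  · rintro ⟨h1, h2⟩
    refine ⟨⟨?_, h1⟩, h2⟩
    have h3 : n % 84 = 19 ∨ n % 84 = 31 ∨ n % 84 = 55 := h0 n h2.2.1
    omega

theorem num_numP (Q : ℕ → Prop) (X : ℕ) : num Q X = numP Cl Q X := by
  unfold num numP Class Cl
  simp only [and_assoc]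

theorem num_eq (Q : ℕ → Prop) (X : ℕ) : num Q X = Cc Cl Q X := by
  classical
  rw [num_numP, numP_eq fun n h => h]
  rfl

theorem num_triv (X : ℕ) : num TrivialTwo X = Cc Cl Qc X := by
  classical
  rw [num_eq]
  unfold Cc
  refine congrArg Finset.card (Finset.filter_congr fun n _ => ?_)
  constructor
  · rintro ⟨h1, h2, h3⟩
    exact ⟨h1, h2, (triv_iff ⟨h1, h2⟩).1 h3⟩
  · rintro ⟨h1, h2, h3⟩
    exact ⟨h1, h2, (triv_iff ⟨h1, h2⟩).2 h3⟩

theorem numAll_eq (Q : ℤ → Prop) [DecidablePred Q] (X : ℕ) :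
    numAll Q X = ((Dd X).filter fun d => Q d).card := by
  classical
  unfold numAll
  refine Nat.subtype_card _ fun d => ?_
  rw [mem_filter, Dd, mem_filter, mem_Ioo, abs_lt]
  tauto

theorem numAll_true (X : ℕ) : numAll (fun _ => True) X = (Dd X).card := by
  classical
  rw [numAll_eq, filter_true]

theorem numP_mono {P Q R : ℕ → Prop} (h0 : ∀ n, P n → Cl n)
    (h : ∀ n, Squarefree n → P n → Q n → R n) (X : ℕ) : numP P Q X ≤ numP P R X := by
  classical
  rw [numP_eq h0, numP_eq h0]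
  refine Finset.card_le_card fun n hn => ?_
  rw [mem_filter] at hn ⊢
  exact ⟨hn.1, hn.2.1, hn.2.2.1, h n hn.2.1 hn.2.2.1 hn.2.2.2⟩

/-- the complement -/
theorem numP_not {P Q R : ℕ → Prop} (h0 : ∀ n, P n → Cl n)
    (h : ∀ n, Squarefree n → P n → ¬ Q n → R n) (X : ℕ) :
    numP P (fun _ => True) X ≤ numP P Q X + numP P R X := by
  classical
  rw [numP_eq h0, numP_eq h0, numP_eq h0]
  refine (Finset.card_le_card (t := ((Icc 1 X).filter fun n => Squarefree n ∧ P n ∧ Q n) ∪
    ((Icc 1 X).filter fun n => Squarefree n ∧ P n ∧ R n)) fun n hn => ?_).trans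
    (Finset.card_union_le _ _)
  rw [mem_filter] at hn
  rw [mem_union, mem_filter, mem_filter]
  by_cases hq : Q n
  · exact Or.inl ⟨hn.1, hn.2.1, hn.2.2.1, hq⟩
  · exact Or.inr ⟨hn.1, hn.2.1, hn.2.2.1, h n hn.2.1 hn.2.2.1 hq⟩

theorem lim : Tendsto (fun Y : ℕ => (Cc Cl Qc Y : ℝ) / (Cc Cl (fun _ => True) Y : ℝ)) atTop
    (𝓝 η) := by
  classical
  have h := Pool.Agent.Run7.h843.G.dens_Qc 168 (by norm_num) (by norm_num) Cl
    (fun n => by
      show (n % 84 = 19 ∨ n % 84 = 31 ∨ n % 84 = 55) ↔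
        (n % 168 % 84 = 19 ∨ n % 168 % 84 = 31 ∨ n % 168 % 84 = 55)
      omega) (fun n h => by
      have h' : n % 84 = 19 ∨ n % 84 = 31 ∨ n % 84 = 55 := h
      omega) 19 (Or.inl rfl) (by norm_num)
  refine h.congr fun Y => ?_
  unfold Cc
  simp only [and_true]

theorem ep84 : Pool.Agent.N873.F15.Dn.ep 84 = 32 / 49 := by
  unfold Pool.Agent.N873.F15.Dn.ep
  have : (84 : ℕ).primeFactors = {2, 3, 7} := by
    have e : (84 : ℕ) = 2 ^ 2 * (3 * 7) := by norm_num
    rw [e, Nat.primeFactors_mul (by norm_num) (by norm_num), Nat.primeFactors_mul (by norm_num)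
      (by norm_num), Nat.primeFactors_prime_pow (by norm_num) Nat.prime_two,
      Nat.Prime.primeFactors Nat.prime_three, Nat.Prime.primeFactors (by norm_num)]
    rfl
  rw [this, prod_insert (by decide), prod_insert (by decide), prod_singleton]
  norm_num

/-! ### multipliers -/

theorem k3 {t G : ℕ} (h : t * G ^ 2 % 3 = 1) : t % 3 = 1 := by
  have h1 : t % 3 = 0 ∨ t % 3 = 1 ∨ t % 3 = 2 := by omega
  have h2 : G % 3 = 0 ∨ G % 3 = 1 ∨ G % 3 = 2 := by omega
  rw [Nat.mul_mod, Nat.pow_mod] at h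
  rcases h1 with h1 | h1 | h1 <;> rcases h2 with h2 | h2 | h2 <;> rw [h1, h2] at h <;>
    first
    | exact h1
    | (norm_num at h)

theorem k4 {t G : ℕ} (h : t * G ^ 2 % 4 = 3) : t % 4 = 3 := by
  have h1 : t % 4 = 0 ∨ t % 4 = 1 ∨ t % 4 = 2 ∨ t % 4 = 3 := by omega
  have h2 : G % 4 = 0 ∨ G % 4 = 1 ∨ G % 4 = 2 ∨ G % 4 = 3 := by omega
  rw [Nat.mul_mod, Nat.pow_mod] at h
  rcases h1 with h1 | h1 | h1 | h1 <;> rcases h2 with h2 | h2 | h2 | h2 <;> rw [h1, h2] at h <;>
    first
    | exact h1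
    | (norm_num at h)

theorem k7 {t G : ℕ} (h : t * G ^ 2 % 7 = 3 ∨ t * G ^ 2 % 7 = 5 ∨ t * G ^ 2 % 7 = 6) :
    t % 7 = 3 ∨ t % 7 = 5 ∨ t % 7 = 6 := by
  have h1 : t % 7 = 0 ∨ t % 7 = 1 ∨ t % 7 = 2 ∨ t % 7 = 3 ∨ t % 7 = 4 ∨ t % 7 = 5 ∨ t % 7 = 6 := by
    omega
  have h2 : G % 7 = 0 ∨ G % 7 = 1 ∨ G % 7 = 2 ∨ G % 7 = 3 ∨ G % 7 = 4 ∨ G % 7 = 5 ∨ G % 7 = 6 := by
    omega
  rw [Nat.mul_mod, Nat.pow_mod] at h
  rcases h1 with h1 | h1 | h1 | h1 | h1 | h1 | h1
  · rw [h1] at h
    norm_num at h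
  · rcases h2 with h2 | h2 | h2 | h2 | h2 | h2 | h2 <;> rw [h1, h2] at h <;> norm_num at h
  · rcases h2 with h2 | h2 | h2 | h2 | h2 | h2 | h2 <;> rw [h1, h2] at h <;> norm_num at h
  · exact Or.inl h1
  · rcases h2 with h2 | h2 | h2 | h2 | h2 | h2 | h2 <;> rw [h1, h2] at h <;> norm_num at h
  · exact Or.inr (Or.inl h1)
  · exact Or.inr (Or.inr h1)

theorem sqf_class {a n : ℕ} (ha : Mult a) (hn : Class n) : Class (sqf a n) := by
  have hs := Pool.Agent.Run7.h424.J.tw_spec ha.1 hn.1
  have e : Pool.Agent.Run7.h238.J.tw a n = sqf a n := rfl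
  rw [e] at hs
  obtain ⟨h1, -, h3⟩ := hs
  have a2 := ha.2
  have n2 := hn.2
  have m3 : sqf a n * Nat.gcd a n ^ 2 % 3 = 1 := by
    rw [h3, Nat.mul_mod, show a % 3 = 1 by omega, show n % 3 = 1 by omega]
  have m4 : sqf a n * Nat.gcd a n ^ 2 % 4 = 3 := by
    rw [h3, Nat.mul_mod, show a % 4 = 1 by omega, show n % 4 = 3 by omega]
  have m7 : sqf a n * Nat.gcd a n ^ 2 % 7 = 3 ∨ sqf a n * Nat.gcd a n ^ 2 % 7 = 5 ∨
      sqf a n * Nat.gcd a n ^ 2 % 7 = 6 := by
    rw [h3, Nat.mul_mod]
    have ha7 : a % 7 = 1 ∨ a % 7 = 4 ∨ a % 7 = 2 := by omega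
    have hn7 : n % 7 = 5 ∨ n % 7 = 3 ∨ n % 7 = 6 := by omega
    rcases ha7 with h | h | h <;> rcases hn7 with h' | h' | h' <;> rw [h, h'] <;> norm_num
  have r3 := k3 m3
  have r4 := k4 m4
  have r7 := k7 m7
  refine ⟨h1, ?_⟩
  omega

/-- **the joint law**, for a periodic condition -/
theorem law {S T : Finset ℕ} (hS : ∀ a ∈ S, Mult a) (hT : T ⊆ S) {M : ℕ} (h8 : 8 ∣ M)
    (hM0 : 0 < M) {P : ℕ → Prop} (hP : ∀ n, P n ↔ P (n % M)) (hcl : ∀ n, P n → Cl n) {b : ℕ}
    (hb : P b) (hc : b.Coprime M) :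
    Tendsto (fun X : ℕ => (numP P (fun n => ∀ a ∈ S, (TrivialTwo (sqf a n) ↔ a ∈ T)) X : ℝ) /
      (numP P (fun _ => True) X : ℝ)) atTop (𝓝 (η ^ T.card * (1 - η) ^ (S.card - T.card))) := by
  classical
  have hu : T ∪ S \ T = S := Finset.union_sdiff_of_subset hT
  have h := Pool.Agent.Run7.h238.J.dens_pat
    (fun N => Pool.Agent.Run7.h289.J.t_JDQ (fun _ : Fin N => 0)) T (S \ T) Finset.disjoint_sdiff
    (fun a ha => (hS a (by rwa [hu] at ha)).1)
    (fun a ha => by
      have := (hS a (by rwa [hu] at ha)).2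
      omega) M h8 hM0 P hP
    (fun n hn => by
      have h' : n % 84 = 19 ∨ n % 84 = 31 ∨ n % 84 = 55 := hcl n hn
      omega) b hb hc
  rw [Finset.card_sdiff_of_subset hT] at h
  have eη : Pool.Agent.N916.GB.eta = η := rfl
  rw [eη] at h
  refine h.congr fun X => ?_
  rw [numP_eq hcl, numP_eq hcl]
  congr 2
  · congr 1
    refine Finset.filter_congr fun n _ => and_congr_right fun hn => and_congr_right fun hPn => ?_
    have key : ∀ a ∈ S, (TrivialTwo (sqf a n) ↔ Qc (Pool.Agent.Run7.h238.J.tw a n)) := fun a ha =>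
      triv_iff (sqf_class (hS a ha) ⟨hn, hcl n hPn⟩)
    constructor
    · rintro ⟨h1, h2⟩ a ha
      rw [key a ha]
      constructor
      · intro hq
        by_contra hT'
        exact h2 a (Finset.mem_sdiff.2 ⟨ha, hT'⟩) hq
      · intro haT
        exact h1 a haT
    · intro h1
      refine ⟨fun a ha => (key a (hT ha)).1 ((h1 a (hT ha)).2 ha), fun a ha hq => ?_⟩
      rw [Finset.mem_sdiff] at ha
      exact ha.2 ((h1 a ha.1).1 ((key a ha.1).2 hq))
  · congr 1
    refine Finset.filter_congr fun n _ => ?_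
    simp only [and_true]

theorem hPCl (n : ℕ) : Cl n ↔ Cl (n % 168) := by
  show (n % 84 = 19 ∨ n % 84 = 31 ∨ n % 84 = 55) ↔
    (n % 168 % 84 = 19 ∨ n % 168 % 84 = 31 ∨ n % 168 % 84 = 55)
  omega

theorem law' {S T : Finset ℕ} (hS : ∀ a ∈ S, Mult a) (hT : T ⊆ S) :
    Tendsto (fun X : ℕ => (num (fun n => ∀ a ∈ S, (TrivialTwo (sqf a n) ↔ a ∈ T)) X : ℝ) /
      (num (fun _ => True) X : ℝ)) atTop (𝓝 (η ^ T.card * (1 - η) ^ (S.card - T.card))) := by
  have h := law hS hT (M := 168) (by norm_num) (by norm_num) hPCl (fun n h => h) (b := 19)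
    (Or.inl rfl) (by norm_num)
  refine h.congr fun X => ?_
  rw [num_numP, num_numP]

end count

/-- **The rank form for the twists of `X_0(21)`: exact densities and independence.** -/
theorem result :
    (∀ n : ℕ, Class n → (TrivialTwo n ↔ Criterion n)) ∧
    (∀ n : ℕ, Class n → TrivialTwo n →
      RankFormZero (-5211 * (n : ℤ) ^ 2) (31050 * (n : ℤ) ^ 3)) ∧
    (∀ p : ℕ, p.Prime → p % 84 = 19 ∨ p % 84 = 31 ∨ p % 84 = 55 →
      RankFormZero (-5211 * (p : ℤ) ^ 2) (31050 * (p : ℤ) ^ 3)) ∧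
    0.2887 < η ∧ η < 0.2889 ∧
    (∀ S : Finset ℕ, (∀ a ∈ S, Mult a) →
      (∀ a ∈ S, ∀ n : ℕ, Class n → Class (sqf a n) ∧
        sqf a n * Nat.gcd a n ^ 2 = a * n) ∧
      (∀ T ⊆ S, Tendsto (fun X : ℕ =>
        (num (fun n => ∀ a ∈ S, (TrivialTwo (sqf a n) ↔ a ∈ T)) X : ℝ) /
          (num (fun _ => True) X : ℝ)) atTop (𝓝 (η ^ T.card * (1 - η) ^ (S.card - T.card)))) ∧
      (∀ T ⊆ S, ∀ m b : ℕ, 0 < m → 84 ∣ m → b.Coprime m → b % 84 = 19 ∨ b % 84 = 31 ∨ b % 84 = 55 →
        Tendsto (fun X : ℕ =>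
          (num (fun n => n % m = b % m ∧ ∀ a ∈ S, (TrivialTwo (sqf a n) ↔ a ∈ T)) X : ℝ) /
            (num (fun n => n % m = b % m) X : ℝ)) atTop
            (𝓝 (η ^ T.card * (1 - η) ^ (S.card - T.card)))) ∧
      (∀ᶠ X : ℕ in atTop, 0.2887 ^ S.card * (num (fun _ => True) X : ℝ) ≤
        (num (fun n => ∀ a ∈ S,
          RankFormZero (-5211 * (sqf a n : ℤ) ^ 2) (31050 * (sqf a n : ℤ) ^ 3)) X : ℝ)) ∧
      (∀ᶠ X : ℕ in atTop, (1 - 0.7113 ^ S.card) * (num (fun _ => True) X : ℝ) ≤
        (num (fun n => ∃ a ∈ S,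
          RankFormZero (-5211 * (sqf a n : ℤ) ^ 2) (31050 * (sqf a n : ℤ) ^ 3)) X : ℝ))) ∧
    ∀ᶠ X : ℕ in atTop, 0.0078 * (numAll (fun _ => True) X : ℝ) ≤ (numAll TwistZero X : ℝ) := by
  classical
  have hη1 : 0.2887 < η := Pool.Agent.N916.GB.eta_bounds.1
  have hη2 : η < 0.2889 := Pool.Agent.N916.GB.eta_bounds.2
  have hcrit : ∀ n : ℕ, Class n → (TrivialTwo n ↔ Criterion n) := fun n h =>
    (triv_iff h).trans (Run7.h424.N15.crit_iff h.1).symm
  have hpos : ∀ᶠ X : ℕ in atTop, (0 : ℝ) < (num (fun _ => True) X : ℝ) := by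
    have h1 := lim.eventually (lt_mem_nhds hη1)
    filter_upwards [h1] with X hX
    rcases Nat.eq_zero_or_pos (Run7.h424.N15.Cc Cl (fun _ => True) X) with h | h
    · rw [h] at hX
      norm_num at hX
    · rw [num_eq]
      exact_mod_cast h
  refine ⟨hcrit, fun n h ht => rank' h ht, ?_, hη1, hη2, ?_, ?_⟩
  · intro p hp h84
    have hc : Class p := ⟨hp.prime.squarefree, h84⟩
    exact rank' hc ((hcrit p hc).2 (prime_crit hp))
  · intro S hS
    refine ⟨fun a ha n hn => ⟨sqf_class (hS a ha) hn,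
      (Pool.Agent.Run7.h424.J.tw_spec (hS a ha).1 hn.1).2.2⟩, fun T hT => law' hS hT, ?_, ?_, ?_⟩
    · intro T hT m b hm h84 hbm hb
      have h := law hS hT (M := 2 * m) (P := fun n => n % m = b % m) (b := b)
        (by obtain ⟨k, rfl⟩ := h84; exact ⟨21 * k, by ring⟩) (by omega)
        (fun n => by
          show n % m = b % m ↔ n % (2 * m) % m = b % m
          rw [Nat.mod_mul_left_mod])
        (fun n hn => by
          have h1 : n % m = b % m := hn
          have h2 : n % 84 = b % 84 := by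
            rw [← Nat.mod_mod_of_dvd n h84, h1, Nat.mod_mod_of_dvd b h84]
          show n % 84 = 19 ∨ n % 84 = 31 ∨ n % 84 = 55
          rw [h2]
          exact hb) rfl
        (by
          rw [Nat.coprime_mul_iff_right]
          refine ⟨?_, hbm⟩
          rw [Nat.coprime_two_right]
          rw [Nat.odd_iff]
          omega)
      refine h.congr fun X => ?_
      have hcl : ∀ n, n % m = b % m → (n % 84 = 19 ∨ n % 84 = 31 ∨ n % 84 = 55) := by
        intro n h1
        have h2 : n % 84 = b % 84 := by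
          rw [← Nat.mod_mod_of_dvd n h84, h1, Nat.mod_mod_of_dvd b h84]
        rw [h2]
        exact hb
      congr 2
      · unfold numP num
        refine Nat.card_congr (Equiv.subtypeEquivRight fun n => ?_)
        constructor
        · rintro ⟨h1, h2, h3, h4⟩
          exact ⟨h1, ⟨h2, hcl n h3⟩, h3, h4⟩
        · rintro ⟨h1, h2, h3, h4⟩
          exact ⟨h1, h2.1, h3, h4⟩
      · unfold numP num
        refine Nat.card_congr (Equiv.subtypeEquivRight fun n => ?_)
        constructor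
        · rintro ⟨h1, h2, h3, _⟩
          exact ⟨h1, ⟨h2, hcl n h3⟩, h3⟩
        · rintro ⟨h1, h2, h3⟩
          exact ⟨h1, h2.1, h3, trivial⟩
    · rcases S.eq_empty_or_nonempty with rfl | hne
      · refine Filter.Eventually.of_forall fun X => ?_
        rw [Finset.card_empty, pow_zero, one_mul, num_numP, num_numP]
        refine Nat.cast_le.2 (numP_mono (fun n h => h) (fun n _ _ _ a ha => ?_) X)
        exact absurd ha (by simp)
      · have h1 := law' hS (Finset.Subset.refl S)
        rw [Nat.sub_self, pow_zero, mul_one] at h1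
        have hc : 0 < S.card := hne.card_pos
        have hlt : (0.2887 : ℝ) ^ S.card < η ^ S.card :=
          pow_lt_pow_left₀ hη1 (by norm_num) hc.ne'
        filter_upwards [h1.eventually (lt_mem_nhds hlt), hpos] with X hX h3
        have h4 := (lt_div_iff₀ h3).1 hX
        have h2 : (num (fun n => ∀ a ∈ S, (TrivialTwo (sqf a n) ↔ a ∈ S)) X : ℝ) ≤
            (num (fun n => ∀ a ∈ S,
              RankFormZero (-5211 * (sqf a n : ℤ) ^ 2) (31050 * (sqf a n : ℤ) ^ 3)) X : ℝ) := by
          rw [num_numP, num_numP]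
          refine Nat.cast_le.2 (numP_mono (fun n h => h) (fun n h5 h6 h7 a ha => ?_) X)
          exact rank' (sqf_class (hS a ha) ⟨h5, h6⟩) ((h7 a ha).2 ha)
        linarith
    · rcases S.eq_empty_or_nonempty with rfl | hne
      · refine Filter.Eventually.of_forall fun X => ?_
        rw [Finset.card_empty, pow_zero, sub_self, zero_mul]
        exact Nat.cast_nonneg _
      · have h1 := law' hS (Finset.empty_subset S)
        rw [Finset.card_empty, pow_zero, one_mul, Nat.sub_zero] at h1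
        have hc : 0 < S.card := hne.card_pos
        have hlt : (1 - η) ^ S.card < (0.7113 : ℝ) ^ S.card :=
          pow_lt_pow_left₀ (by linarith) (by linarith) hc.ne'
        filter_upwards [h1.eventually (gt_mem_nhds hlt), hpos] with X hX h3
        have h4 := (div_lt_iff₀ h3).1 hX
        have h2 : (num (fun _ => True) X : ℝ) ≤
            (num (fun n => ∀ a ∈ S, (TrivialTwo (sqf a n) ↔ a ∈ (∅ : Finset ℕ))) X : ℝ) +
            (num (fun n => ∃ a ∈ S,
              RankFormZero (-5211 * (sqf a n : ℤ) ^ 2) (31050 * (sqf a n : ℤ) ^ 3)) X : ℝ) := by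
          rw [num_numP, num_numP, num_numP, ← Nat.cast_add]
          refine Nat.cast_le.2 (numP_not (fun n h => h) (fun n h5 h6 h7 => ?_) X)
          push Not at h7
          obtain ⟨a, ha, h8⟩ := h7
          refine ⟨a, ha, rank' (sqf_class (hS a ha) ⟨h5, h6⟩) ?_⟩
          rcases h8 with h8 | h8
          · exact h8.1
          · exact absurd h8.2 (by simp)
        linarith
  · have h1 := Run7.h424.N15.lowerG (N := 84) (by norm_num) {19, 31, 55} (by decide)
      ⟨19, by decide⟩ (C := Cl) (fun n => by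
        show (n % 84 = 19 ∨ n % 84 = 31 ∨ n % 84 = 55) ↔ n % 84 ∈ ({19, 31, 55} : Finset ℕ)
        simp only [Finset.mem_insert, Finset.mem_singleton]) lim (P := TwistZero)
      (fun n hs h84 hq => rank_of ⟨hs, h84⟩ ((triv_iff ⟨hs, h84⟩).2 hq)) (c := 0.0078) (by
        rw [ep84]
        have e : (({19, 31, 55} : Finset ℕ).card : ℝ) = 3 := by
          have : ({19, 31, 55} : Finset ℕ).card = 3 := by decide
          rw [this]
          norm_num
        rw [e]
        norm_num
        norm_num at hη1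
        linarith)
    filter_upwards [h1] with X hX
    rw [numAll_true, numAll_eq]
    exact hX

end Pool.Agent.Results.MP_696deb_nt.TwistsX21Joint
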