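import Pool.Agent.Run7.h424.N15.RF24
import Pool.Agent.Run7.h424.N15.Crit
import Pool.Agent.Run7.h424.N15.Low
import Pool.Agent.Run7.h238.J.Grand
import Pool.Agent.Run7.h289.J.Cl
import Pool.Agent.Run7.h843.G3

/-!
# The rank form of the Birch and Swinnerton-Dyer conjecture for the quadratic twists of `X_0(24)`:
# exact natural densities, and independence for all finite sets of multipliers

`E_n : y² = x (x - n) (x - 4 n)` is the quadratic twist by `-n` of
`X_0(24) : y² = x (x + 1) (x + 4)`, a curve without complex multiplication; its short model is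
`y² = x³ - 351 n² x - 1890 n³` (put `x = 9 X - 15 n`). The class consists of the squarefree `n`
congruent to `11` modulo `24`, in the natural order. A multiplier is a squarefree `a` congruent to
`1` modulo `24`; for `n` of the class the squarefree part `sqf a n` of `a n` is in the class again.
Let `η = ∏_{i ≥ 1} (1 - 2^{-i}) = 0.2888...`.
* For `n` of the class, `E_n(ℚ)` is finite and `Ш(E_n/ℚ)[2^∞] = 0` if and only if `n` is not the
  product of two numbers `b, c > 1` such that `b` is a square modulo the primes dividing `c` and `c`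
  is a square modulo the primes dividing `b`. Then the rank form of the conjecture holds for
  `E_n`, with rank and order of vanishing zero (the conclusion of the frozen statement S17291).
* **Independence.** For every finite set `S` of multipliers and every subset `T`, exactly the
  proportion `η^#T (1 - η)^(#S - #T)` of the class has this property for the twists by `- a n`
  with `a` in `T` and for no other `a` in `S`; the same holds in every arithmetic progression of
  the class prime to its modulus. For `S = T = {1}` this is the natural density `η` of the property.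
* So, for every finite set `S` of multipliers, the rank form holds, with order and rank zero, for all
  twists by `- a n`, `a ∈ S`, at once for more than the proportion `0.2887^#S` of the class, and for
  at least one of them for all but the proportion `0.7113^#S`.
* It holds for all primes of the class and for more than `0.90` percent of all quadratic twists of
  `X_0(24)`.

The proof (files of this project): the complete 2-descent (`Run7/h289/D18`); the modularity of
`X_0(24)` with its modular symbols (`Run7/h741/MH`, `Run7/h209/P24`, `Run7/h843/P24`,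
`Run7/h135/P24/Dim*`); the twisted Euler product, the functional equation and the central value
(`Run7/h555/TL`, `Run7/h555/P24/Lx`, `Run7/h89/P24`); the central value as a square, by an identity
between modular symbols and numbers of representations by ternary quadratic forms
(`Run7/h135/P24`, `Run7/h483/P24`, `Run7/h555/P24/Th`); the natural density of the criterion
(`N916/GB`, `Run7/h843/G3`); the joint law of the criterion for finitely many multipliers
(`Run7/h238/J`, `Run7/h424/J`, `Run7/h209/J`, `Run7/h843/J`, `Run7/h89/J`, `Run7/h289/J`).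
-/

set_option autoImplicit false

open Filter Topology

namespace Pool.Agent.Results.MP_696deb_nt.TwistsX24Joint

open Pool.Agent.TH841.NF.D (Sha)

/-- the curve `y² = x (x - n) (x - 4 n)` over `ℚ` -/
def E (n : ℕ) : WeierstrassCurve ℚ :=
  { a₁ := 0, a₂ := -5 * n, a₃ := 0, a₄ := 4 * (n : ℚ) ^ 2, a₆ := 0 }

/-- the class -/
def Class (n : ℕ) : Prop := Squarefree n ∧ n % 24 = 11

/-- the multipliers -/
def Mult (a : ℕ) : Prop := Squarefree a ∧ a % 24 = 1

/-- the squarefree part of the product of two squarefree numbers -/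
def sqf (a n : ℕ) : ℕ := a * n / Nat.gcd a n ^ 2

/-- `E_n(ℚ)` is finite and `Ш(E_n/ℚ)[2^∞] = 0` -/
def TrivialTwo (n : ℕ) : Prop :=
  Finite (E n).toAffine.Point ∧ ∀ k : ℕ, ∀ x : Sha (E n), 2 ^ k • x = 0 → x = 0

/-- whenever `b c = n`, where `b` is a square modulo all primes dividing `c` and `c` is a square modulo
all primes dividing `b`, then `b = 1` or `c = 1` -/
def Criterion (n : ℕ) : Prop :=
  ∀ b c : ℕ, b * c = n → (∀ p : ℕ, p.Prime → p ∣ c → IsSquare (b : ZMod p)) →
    (∀ p : ℕ, p.Prime → p ∣ b → IsSquare (c : ZMod p)) → b = 1 ∨ c = 1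

open Classical in
/-- The rank form of the conjecture for `y² = x³ + a x + b`, with rank zero: the incomplete Euler product
over the primes `p ∤ 2Δ` extends to an entire function `F` with `ord_{s=1} F = 0 = rank`. -/
def RankFormZero (a b : ℤ) : Prop :=
  ∃ F : ℂ → ℂ, Differentiable ℂ F ∧
    (∀ s : ℂ, (3 : ℝ) / 2 < s.re →
      HasProd
        (fun p : ℕ =>
          if p.Prime ∧ ¬ ((p : ℤ) ∣ 2 * (-4 * a ^ 3 - 27 * b ^ 2)) then
            (1 - ((p : ℂ) - (Nat.card {q : ZMod p × ZMod p //
                q.2 ^ 2 = q.1 ^ 3 + (a : ZMod p) * q.1 + (b : ZMod p)} : ℂ))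
                * (p : ℂ) ^ (-s) + (p : ℂ) ^ (1 - 2 * s))⁻¹
          else 1)
        (F s)) ∧
    analyticOrderAt F 1 = 0 ∧
    Module.finrank ℤ
      (WeierstrassCurve.Affine.Point
        (WeierstrassCurve.toAffine
          ({ a₁ := 0, a₂ := 0, a₃ := 0, a₄ := (a : ℚ), a₆ := (b : ℚ) } :
            WeierstrassCurve ℚ))) = 0

/-- the rank form for the quadratic twist by `d` of `X_0(24)`, with rank and order zero -/
def TwistZero (d : ℤ) : Prop := RankFormZero (-351 * d ^ 2) (1890 * d ^ 3)

/-- the number of the `n ≤ X` of the class with the property `Q` -/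
noncomputable def num (Q : ℕ → Prop) (X : ℕ) : ℕ :=
  Nat.card {n : ℕ // n ≤ X ∧ Class n ∧ Q n}

/-- the number of the squarefree integers `d` with `|d| < X` and with the property `Q` -/
noncomputable def numAll (Q : ℤ → Prop) (X : ℕ) : ℕ :=
  Nat.card {d : ℤ // |d| < X ∧ Squarefree d ∧ Q d}

/-- the constant `0.2888...` -/
noncomputable def η : ℝ := ∏' i : ℕ, (1 - (1 / 2 : ℝ) ^ (i + 1))

section proof

open Pool.Agent.N969.P15 (Qc)

theorem triv_iff {n : ℕ} (h : Class n) : TrivialTwo n ↔ Qc n := by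
  have hW : E n = ⟨0, ((-5 * n : ℤ) : ℚ), 0, ((4 * n ^ 2 : ℤ) : ℚ), 0⟩ := by
    unfold E
    push_cast
    rfl
  exact Pool.Agent.Run7.h289.D18.iff24 h.1 h.2 hW

theorem prime_crit {p : ℕ} (hp : p.Prime) : Criterion p := by
  intro b c hbc _ _
  rcases (Nat.dvd_prime hp).1 ⟨c, hbc.symm⟩ with h | h
  · exact Or.inl h
  · right
    rw [h] at hbc
    exact Nat.eq_of_mul_eq_mul_left hp.pos (by rw [hbc, mul_one])

/-- the rank form -/
theorem rank' {n : ℕ} (h : Class n) (ht : TrivialTwo n) :
    RankFormZero (-351 * (n : ℤ) ^ 2) (-1890 * (n : ℤ) ^ 3) :=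
  Run7.h424.N15.rf24 h.1 h.2 ((triv_iff h).1 ht)

theorem rank_of {n : ℕ} (h : Class n) (ht : TrivialTwo n) : TwistZero (-(n : ℤ)) := by
  have h1 := rank' h ht
  have e1 : (-351 * (-(n : ℤ)) ^ 2 : ℤ) = -351 * (n : ℤ) ^ 2 := by ring
  have e2 : (1890 * (-(n : ℤ)) ^ 3 : ℤ) = -1890 * (n : ℤ) ^ 3 := by ring
  unfold TwistZero
  rw [e1, e2]
  exact h1

end proof

section count

open Finset
open Pool.Agent.N969.P15 (Qc)
open Run7.h238.G15 (Dd)
open Run7.h424.N15 (Cc)

/-- the residue class -/
def Cl (n : ℕ) : Prop := n % 24 = 11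

/-- the count with an additional condition -/
noncomputable def numP (P Q : ℕ → Prop) (X : ℕ) : ℕ :=
  Nat.card {n : ℕ // n ≤ X ∧ Squarefree n ∧ P n ∧ Q n}

theorem numP_eq {P : ℕ → Prop} (h0 : ∀ n, P n → Cl n) (Q : ℕ → Prop) (X : ℕ) [DecidablePred P]
    [DecidablePred Q] :
    numP P Q X = ((Icc 1 X).filter fun n => Squarefree n ∧ P n ∧ Q n).card := by
  classical
  unfold numP
  refine Nat.subtype_card _ fun n => ?_
  rw [mem_filter, mem_Icc]
  constructor
  · rintro ⟨⟨_, h1⟩, h2⟩
    exact ⟨h1, h2⟩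
  · rintro ⟨h1, h2⟩
    refine ⟨⟨?_, h1⟩, h2⟩
    have h3 : n % 24 = 11 := h0 n h2.2.1
    omega

theorem num_numP (Q : ℕ → Prop) (X : ℕ) : num Q X = numP Cl Q X := by
  unfold num numP Class Cl
  simp only [and_assoc]

theorem num_eq (Q : ℕ → Prop) (X : ℕ) : num Q X = Cc Cl Q X := by
  classical
  rw [num_numP, numP_eq fun n h => h]
  rfl

theorem num_triv (X : ℕ) : num TrivialTwo X = Cc Cl Qc X := by
  classical
  rw [num_eq]
  unfold Cc
  refine congrArg Finset.card (Finset.filter_congr fun n _ => ?_)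
  constructor
  · rintro ⟨h1, h2, h3⟩
    exact ⟨h1, h2, (triv_iff ⟨h1, h2⟩).1 h3⟩
  · rintro ⟨h1, h2, h3⟩
    exact ⟨h1, h2, (triv_iff ⟨h1, h2⟩).2 h3⟩

theorem numAll_eq (Q : ℤ → Prop) [DecidablePred Q] (X : ℕ) :
    numAll Q X = ((Dd X).filter fun d => Q d).card := by
  classical
  unfold numAll
  refine Nat.subtype_card _ fun d => ?_
  rw [mem_filter, Dd, mem_filter, mem_Ioo, abs_lt]
  tauto

theorem numAll_true (X : ℕ) : numAll (fun _ => True) X = (Dd X).card := by
  classical
  rw [numAll_eq, filter_true]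

theorem numP_mono {P Q R : ℕ → Prop} (h0 : ∀ n, P n → Cl n)
    (h : ∀ n, Squarefree n → P n → Q n → R n) (X : ℕ) : numP P Q X ≤ numP P R X := by
  classical
  rw [numP_eq h0, numP_eq h0]
  refine Finset.card_le_card fun n hn => ?_
  rw [mem_filter] at hn ⊢
  exact ⟨hn.1, hn.2.1, hn.2.2.1, h n hn.2.1 hn.2.2.1 hn.2.2.2⟩

/-- the complement -/
theorem numP_not {P Q R : ℕ → Prop} (h0 : ∀ n, P n → Cl n)
    (h : ∀ n, Squarefree n → P n → ¬ Q n → R n) (X : ℕ) :
    numP P (fun _ => True) X ≤ numP P Q X + numP P R X := by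
  classical
  rw [numP_eq h0, numP_eq h0, numP_eq h0]
  refine (Finset.card_le_card (t := ((Icc 1 X).filter fun n => Squarefree n ∧ P n ∧ Q n) ∪
    ((Icc 1 X).filter fun n => Squarefree n ∧ P n ∧ R n)) fun n hn => ?_).trans
    (Finset.card_union_le _ _)
  rw [mem_filter] at hn
  rw [mem_union, mem_filter, mem_filter]
  by_cases hq : Q n
  · exact Or.inl ⟨hn.1, hn.2.1, hn.2.2.1, hq⟩
  · exact Or.inr ⟨hn.1, hn.2.1, hn.2.2.1, h n hn.2.1 hn.2.2.1 hq⟩

theorem lim : Tendsto (fun Y : ℕ => (Cc Cl Qc Y : ℝ) / (Cc Cl (fun _ => True) Y : ℝ)) atTop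
    (𝓝 η) := by
  classical
  have h := Pool.Agent.Run7.h843.G.dens_Qc 24 (by norm_num) (by norm_num) Cl
    (fun n => by
      show n % 24 = 11 ↔ n % 24 % 24 = 11
      omega) (fun n h => by
      have h' : n % 24 = 11 := h
      omega) 11 (by show 11 % 24 = 11; norm_num) (by norm_num)
  refine h.congr fun Y => ?_
  unfold Cc
  simp only [and_true]

theorem ep24 : Pool.Agent.N873.F15.Dn.ep 24 = 2 / 3 := by
  unfold Pool.Agent.N873.F15.Dn.ep
  have : (24 : ℕ).primeFactors = {2, 3} := by
    have e : (24 : ℕ) = 2 ^ 3 * 3 := by norm_num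
    rw [e, Nat.primeFactors_mul (by norm_num) (by norm_num),
      Nat.primeFactors_prime_pow (by norm_num) Nat.prime_two,
      Nat.Prime.primeFactors Nat.prime_three]
    rfl
  rw [this, prod_insert (by decide), prod_singleton]
  norm_num

/-! ### multipliers -/

theorem sqf_class {a n : ℕ} (ha : Mult a) (h : Class n) : Class (sqf a n) := by
  obtain ⟨h1, _, h3⟩ := Pool.Agent.Run7.h424.J.tw_spec ha.1 h.1
  refine ⟨h1, ?_⟩
  have h24 := h.2
  have h3' : sqf a n * (Nat.gcd a n) ^ 2 = a * n := h3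
  have ha24 := ha.2
  have hg : Nat.gcd a n ∣ a := Nat.gcd_dvd_left a n
  have hg2 : Nat.gcd a n % 2 = 1 := by
    by_contra hc
    have h4 : 2 ∣ Nat.gcd a n := by omega
    have h5 : 2 ∣ a := h4.trans hg
    omega
  have hg3 : ¬ Nat.gcd a n % 3 = 0 := by
    intro hc
    have h4 : 3 ∣ Nat.gcd a n := by omega
    have h5 : 3 ∣ a := h4.trans hg
    omega
  have h6 : (Nat.gcd a n) ^ 2 % 24 = 1 := by
    have h7 : Nat.gcd a n % 24 = 1 ∨ Nat.gcd a n % 24 = 5 ∨ Nat.gcd a n % 24 = 7 ∨
        Nat.gcd a n % 24 = 11 ∨ Nat.gcd a n % 24 = 13 ∨ Nat.gcd a n % 24 = 17 ∨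
        Nat.gcd a n % 24 = 19 ∨ Nat.gcd a n % 24 = 23 := by omega
    rcases h7 with h7 | h7 | h7 | h7 | h7 | h7 | h7 | h7 <;> rw [Nat.pow_mod, h7]
  have h8 : sqf a n * (Nat.gcd a n) ^ 2 % 24 = a * n % 24 := by rw [h3']
  rw [Nat.mul_mod, h6, Nat.mul_mod a n, ha24, h24] at h8
  omega

/-- **the joint law**, for a periodic condition -/
theorem law {S T : Finset ℕ} (hS : ∀ a ∈ S, Mult a) (hT : T ⊆ S) {M : ℕ} (h8 : 8 ∣ M)
    (hM0 : 0 < M) {P : ℕ → Prop} (hP : ∀ n, P n ↔ P (n % M)) (hcl : ∀ n, P n → Cl n) {b : ℕ}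
    (hb : P b) (hc : b.Coprime M) :
    Tendsto (fun X : ℕ => (numP P (fun n => ∀ a ∈ S, (TrivialTwo (sqf a n) ↔ a ∈ T)) X : ℝ) /
      (numP P (fun _ => True) X : ℝ)) atTop (𝓝 (η ^ T.card * (1 - η) ^ (S.card - T.card))) := by
  classical
  have hu : T ∪ S \ T = S := Finset.union_sdiff_of_subset hT
  have h := Pool.Agent.Run7.h238.J.dens_pat
    (fun N => Pool.Agent.Run7.h289.J.t_JDQ (fun _ : Fin N => 0)) T (S \ T) Finset.disjoint_sdiff
    (fun a ha => (hS a (by rwa [hu] at ha)).1)
    (fun a ha => by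
      have := (hS a (by rwa [hu] at ha)).2
      omega) M h8 hM0 P hP
    (fun n hn => by
      have h' : n % 24 = 11 := hcl n hn
      omega) b hb hc
  rw [Finset.card_sdiff_of_subset hT] at h
  have eη : Pool.Agent.N916.GB.eta = η := rfl
  rw [eη] at h
  refine h.congr fun X => ?_
  rw [numP_eq hcl, numP_eq hcl]
  congr 2
  · congr 1
    refine Finset.filter_congr fun n _ => and_congr_right fun hn => and_congr_right fun hPn => ?_
    have key : ∀ a ∈ S, (TrivialTwo (sqf a n) ↔ Qc (Pool.Agent.Run7.h238.J.tw a n)) := fun a ha =>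
      triv_iff (sqf_class (hS a ha) ⟨hn, hcl n hPn⟩)
    constructor
    · rintro ⟨h1, h2⟩ a ha
      rw [key a ha]
      constructor
      · intro hq
        by_contra hT'
        exact h2 a (Finset.mem_sdiff.2 ⟨ha, hT'⟩) hq
      · intro haT
        exact h1 a haT
    · intro h1
      refine ⟨fun a ha => (key a (hT ha)).1 ((h1 a (hT ha)).2 ha), fun a ha hq => ?_⟩
      rw [Finset.mem_sdiff] at ha
      exact ha.2 ((h1 a ha.1).1 ((key a ha.1).2 hq))
  · congr 1
    refine Finset.filter_congr fun n _ => ?_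
    simp only [and_true]

theorem hPCl (n : ℕ) : Cl n ↔ Cl (n % 24) := by
  show n % 24 = 11 ↔ n % 24 % 24 = 11
  omega

theorem law' {S T : Finset ℕ} (hS : ∀ a ∈ S, Mult a) (hT : T ⊆ S) :
    Tendsto (fun X : ℕ => (num (fun n => ∀ a ∈ S, (TrivialTwo (sqf a n) ↔ a ∈ T)) X : ℝ) /
      (num (fun _ => True) X : ℝ)) atTop (𝓝 (η ^ T.card * (1 - η) ^ (S.card - T.card))) := by
  have h := law hS hT (M := 24) (by norm_num) (by norm_num) hPCl (fun n h => h) (b := 11)
    (by show 11 % 24 = 11; norm_num) (by norm_num)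
  refine h.congr fun X => ?_
  rw [num_numP, num_numP]

end count

/-- **The rank form for the twists of `X_0(24)`: exact densities and independence.** -/
theorem result :
    (∀ n : ℕ, Class n → (TrivialTwo n ↔ Criterion n)) ∧
    (∀ n : ℕ, Class n → TrivialTwo n →
      RankFormZero (-351 * (n : ℤ) ^ 2) (-1890 * (n : ℤ) ^ 3)) ∧
    (∀ p : ℕ, p.Prime → p % 24 = 11 →
      RankFormZero (-351 * (p : ℤ) ^ 2) (-1890 * (p : ℤ) ^ 3)) ∧
    0.2887 < η ∧ η < 0.2889 ∧
    (∀ S : Finset ℕ, (∀ a ∈ S, Mult a) →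
      (∀ a ∈ S, ∀ n : ℕ, Class n → Class (sqf a n) ∧
        sqf a n * Nat.gcd a n ^ 2 = a * n) ∧
      (∀ T ⊆ S, Tendsto (fun X : ℕ =>
        (num (fun n => ∀ a ∈ S, (TrivialTwo (sqf a n) ↔ a ∈ T)) X : ℝ) /
          (num (fun _ => True) X : ℝ)) atTop (𝓝 (η ^ T.card * (1 - η) ^ (S.card - T.card)))) ∧
      (∀ T ⊆ S, ∀ m b : ℕ, 0 < m → 24 ∣ m → b.Coprime m → b % 24 = 11 →
        Tendsto (fun X : ℕ =>
          (num (fun n => n % m = b % m ∧ ∀ a ∈ S, (TrivialTwo (sqf a n) ↔ a ∈ T)) X : ℝ) /
            (num (fun n => n % m = b % m) X : ℝ)) atTop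
            (𝓝 (η ^ T.card * (1 - η) ^ (S.card - T.card)))) ∧
      (∀ᶠ X : ℕ in atTop, 0.2887 ^ S.card * (num (fun _ => True) X : ℝ) ≤
        (num (fun n => ∀ a ∈ S,
          RankFormZero (-351 * (sqf a n : ℤ) ^ 2) (-1890 * (sqf a n : ℤ) ^ 3)) X : ℝ)) ∧
      (∀ᶠ X : ℕ in atTop, (1 - 0.7113 ^ S.card) * (num (fun _ => True) X : ℝ) ≤
        (num (fun n => ∃ a ∈ S,
          RankFormZero (-351 * (sqf a n : ℤ) ^ 2) (-1890 * (sqf a n : ℤ) ^ 3)) X : ℝ))) ∧
    ∀ᶠ X : ℕ in atTop, 0.0090 * (numAll (fun _ => True) X : ℝ) ≤ (numAll TwistZero X : ℝ) := by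
  classical
  have hη1 : 0.2887 < η := Pool.Agent.N916.GB.eta_bounds.1
  have hη2 : η < 0.2889 := Pool.Agent.N916.GB.eta_bounds.2
  have hcrit : ∀ n : ℕ, Class n → (TrivialTwo n ↔ Criterion n) := fun n h =>
    (triv_iff h).trans (Run7.h424.N15.crit_iff h.1).symm
  have hpos : ∀ᶠ X : ℕ in atTop, (0 : ℝ) < (num (fun _ => True) X : ℝ) := by
    have h1 := lim.eventually (lt_mem_nhds hη1)
    filter_upwards [h1] with X hX
    rcases Nat.eq_zero_or_pos (Run7.h424.N15.Cc Cl (fun _ => True) X) with h | h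
    · rw [h] at hX
      norm_num at hX
    · rw [num_eq]
      exact_mod_cast h
  refine ⟨hcrit, fun n h ht => rank' h ht, ?_, hη1, hη2, ?_, ?_⟩
  · intro p hp h24
    have hc : Class p := ⟨hp.prime.squarefree, h24⟩
    exact rank' hc ((hcrit p hc).2 (prime_crit hp))
  · intro S hS
    refine ⟨fun a ha n hn => ⟨sqf_class (hS a ha) hn,
      (Pool.Agent.Run7.h424.J.tw_spec (hS a ha).1 hn.1).2.2⟩, fun T hT => law' hS hT, ?_, ?_, ?_⟩
    · intro T hT m b hm h24 hbm hb
      have h8m : 8 ∣ m := Dvd.dvd.trans (by norm_num) h24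
      have hcl : ∀ n, n % m = b % m → n % 24 = 11 := by
        intro n h1
        have h2 : n % 24 = b % 24 := by
          rw [← Nat.mod_mod_of_dvd n h24, h1, Nat.mod_mod_of_dvd b h24]
        rw [h2]
        exact hb
      have h := law hS hT (M := m) (P := fun n => n % m = b % m) (b := b) h8m hm
        (fun n => by
          show n % m = b % m ↔ n % m % m = b % m
          rw [Nat.mod_mod]) hcl rfl hbm
      refine h.congr fun X => ?_
      congr 2
      · unfold numP num
        refine Nat.card_congr (Equiv.subtypeEquivRight fun n => ?_)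
        constructor
        · rintro ⟨h1, h2, h3, h4⟩
          exact ⟨h1, ⟨h2, hcl n h3⟩, h3, h4⟩
        · rintro ⟨h1, h2, h3, h4⟩
          exact ⟨h1, h2.1, h3, h4⟩
      · unfold numP num
        refine Nat.card_congr (Equiv.subtypeEquivRight fun n => ?_)
        constructor
        · rintro ⟨h1, h2, h3, _⟩
          exact ⟨h1, ⟨h2, hcl n h3⟩, h3⟩
        · rintro ⟨h1, h2, h3⟩
          exact ⟨h1, h2.1, h3, trivial⟩
    · rcases S.eq_empty_or_nonempty with rfl | hne
      · refine Filter.Eventually.of_forall fun X => ?_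
        rw [Finset.card_empty, pow_zero, one_mul, num_numP, num_numP]
        refine Nat.cast_le.2 (numP_mono (fun n h => h) (fun n _ _ _ a ha => ?_) X)
        exact absurd ha (by simp)
      · have h1 := law' hS (Finset.Subset.refl S)
        rw [Nat.sub_self, pow_zero, mul_one] at h1
        have hc : 0 < S.card := hne.card_pos
        have hlt : (0.2887 : ℝ) ^ S.card < η ^ S.card :=
          pow_lt_pow_left₀ hη1 (by norm_num) hc.ne'
        filter_upwards [h1.eventually (lt_mem_nhds hlt), hpos] with X hX h3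
        have h4 := (lt_div_iff₀ h3).1 hX
        have h2 : (num (fun n => ∀ a ∈ S, (TrivialTwo (sqf a n) ↔ a ∈ S)) X : ℝ) ≤
            (num (fun n => ∀ a ∈ S,
              RankFormZero (-351 * (sqf a n : ℤ) ^ 2) (-1890 * (sqf a n : ℤ) ^ 3)) X : ℝ) := by
          rw [num_numP, num_numP]
          refine Nat.cast_le.2 (numP_mono (fun n h => h) (fun n h5 h6 h7 a ha => ?_) X)
          exact rank' (sqf_class (hS a ha) ⟨h5, h6⟩) ((h7 a ha).2 ha)
        linarith
    · rcases S.eq_empty_or_nonempty with rfl | hne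
      · refine Filter.Eventually.of_forall fun X => ?_
        rw [Finset.card_empty, pow_zero, sub_self, zero_mul]
        exact Nat.cast_nonneg _
      · have h1 := law' hS (Finset.empty_subset S)
        rw [Finset.card_empty, pow_zero, one_mul, Nat.sub_zero] at h1
        have hc : 0 < S.card := hne.card_pos
        have hlt : (1 - η) ^ S.card < (0.7113 : ℝ) ^ S.card :=
          pow_lt_pow_left₀ (by linarith) (by linarith) hc.ne'
        filter_upwards [h1.eventually (gt_mem_nhds hlt), hpos] with X hX h3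
        have h4 := (div_lt_iff₀ h3).1 hX
        have h2 : (num (fun _ => True) X : ℝ) ≤
            (num (fun n => ∀ a ∈ S, (TrivialTwo (sqf a n) ↔ a ∈ (∅ : Finset ℕ))) X : ℝ) +
            (num (fun n => ∃ a ∈ S,
              RankFormZero (-351 * (sqf a n : ℤ) ^ 2) (-1890 * (sqf a n : ℤ) ^ 3)) X : ℝ) := by
          rw [num_numP, num_numP, num_numP, ← Nat.cast_add]
          refine Nat.cast_le.2 (numP_not (fun n h => h) (fun n h5 h6 h7 => ?_) X)
          push Not at h7
          obtain ⟨a, ha, h8⟩ := h7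
          refine ⟨a, ha, rank' (sqf_class (hS a ha) ⟨h5, h6⟩) ?_⟩
          rcases h8 with h8 | h8
          · exact h8.1
          · exact absurd h8.2 (by simp)
        linarith
  · have h1 := Run7.h424.N15.lowerG (N := 24) (by norm_num) {11} (by decide)
      ⟨11, by decide⟩ (C := Cl) (fun n => by
        show n % 24 = 11 ↔ n % 24 ∈ ({11} : Finset ℕ)
        rw [Finset.mem_singleton]) lim (P := TwistZero)
      (fun n hs h24 hq => rank_of ⟨hs, h24⟩ ((triv_iff ⟨hs, h24⟩).2 hq)) (c := 0.0090) (by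
        rw [ep24]
        rw [Finset.card_singleton]
        norm_num
        norm_num at hη1
        linarith)
    filter_upwards [h1] with X hX
    rw [numAll_true, numAll_eq]
    exact hX

end Pool.Agent.Results.MP_696deb_nt.TwistsX24Joint
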